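import Pool.Agent.Q193.NE.Osc

/-!
The bounds of the derivative of the mean velocity by the maximal function at one point for each
scale (helper193).
-/

set_option autoImplicit false

open MeasureTheory Set Metric
open scoped ContDiff ENNReal

namespace Pool.Agent.Q193.NE

open H459R3.NS W221.NS Pool.Agent.Y7 Pool.Agent.Y8 Pool.Agent.TH305.LG Pool.Agent.Q193.NS
open Pool.Agent.Y153.NS (W2 W2_nn)

/-- The nonlocal quadratic term. -/
theorem Qm_le : ∃ C : ℝ, 0 < C ∧ ∀ v : V → V, SPV v → ∀ (x : V) (y : ℕ → V) (a : ℕ), 4 ≤ a →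
    (∀ l, 4 ≤ l → l ≤ a → ‖x - y l‖ ≤ rr l) →
      Qm a (a - 4) x (fun z => v z - mo (rr a) v x) ≤ C * RR (fun l => gF v (y l)) a := by
  obtain ⟨C, hC, h⟩ := osc1
  refine ⟨12 * C, by positivity, fun v hv x y a ha hy => ?_⟩
  obtain ⟨w, hw⟩ : ∃ w : V → V, w = fun z => v z - mo (rr a) v x := ⟨_, rfl⟩
  have h1 : Qm a (a - 4) x w = ∑ i ∈ Finset.Icc (max 4 1) a, (rr i ^ 4)⁻¹ * A2 x (rr i) w := by
    rw [← sum_rev (fun i => (rr i ^ 4)⁻¹ * A2 x (rr i) w) ha]
    unfold Qm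
    refine Finset.sum_congr rfl fun k hk => ?_
    rw [Finset.mem_filter, Finset.mem_range] at hk
    rw [pow_rr hk.1.le]
  rw [← hw, h1]
  have e4 : max 4 1 = 4 := rfl
  rw [e4]
  have h2 : ∀ i ∈ Finset.Icc 4 a, (rr i ^ 4)⁻¹ * A2 x (rr i) w
      ≤ C * ((rr i)⁻¹ * SS (fun l => gF v (y l)) i a ^ 2) := by
    intro i hi
    obtain ⟨hi1, hi2⟩ := Finset.mem_Icc.1 hi
    have hr := rrp i
    have h3 := h v hv x y a hy i hi1 hi2
    rw [← hw] at h3
    have h4 := mul_le_mul_of_nonneg_left h3 (by positivity : 0 ≤ (rr i ^ 4)⁻¹)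
    refine h4.trans (le_of_eq ?_)
    field_simp
  refine (Finset.sum_le_sum h2).trans ?_
  rw [← Finset.mul_sum]
  have h3 := mul_le_mul_of_nonneg_left (SS_sum (g := fun l => gF v (y l)) a) hC.le
  linarith

/-- The weighted oscillation as a sum. -/
lemma W2_sum {a : ℕ} (ha : 1 ≤ a) (x : V) {w : V → V} (hw : ContDiff ℝ ∞ w) :
    W2 a x w ≤ 64 * ∑ i ∈ Finset.Icc 1 a, rr a ^ 2 * ((rr i ^ 6)⁻¹ * A2 x (rr i) w) := by
  have h1 := Pool.Agent.Y153.NS.dy_all ha 6 x (nsq_sm hw).continuous (nsq_nn w)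
  have h2 : ∑ k ∈ Finset.range a, ((2 ^ k * rr a) ^ 6)⁻¹ * ∫ y in ball x (2 ^ k * rr a), nsq w y
      = ∑ i ∈ Finset.Icc 1 a, (rr i ^ 6)⁻¹ * A2 x (rr i) w := by
    have h3 := sum_rev (fun i => (rr i ^ 6)⁻¹ * A2 x (rr i) w) (Nat.zero_le a)
    have e1 : max 0 1 = 1 := rfl
    rw [e1] at h3
    rw [← h3]
    have hf : (Finset.range a).filter (fun k => k ≤ a - 0) = Finset.range a := by
      apply Finset.filter_true_of_mem
      intro k hk
      have := Finset.mem_range.1 hk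
      omega
    rw [hf]
    refine Finset.sum_congr rfl fun k hk => ?_
    rw [pow_rr (Finset.mem_range.1 hk).le]
    rfl
  rw [h2] at h1
  unfold W2
  have h3 := mul_le_mul_of_nonneg_left h1 (by positivity : 0 ≤ rr a ^ 2)
  refine h3.trans (le_of_eq ?_)
  rw [← Finset.mul_sum]
  ring

lemma Icc_split {a : ℕ} (ha : 4 ≤ a) (F : ℕ → ℝ) :
    ∑ i ∈ Finset.Icc 1 a, F i = ∑ i ∈ Finset.Icc 1 3, F i + ∑ i ∈ Finset.Icc 4 a, F i := by
  rw [← Finset.sum_union]
  · refine Finset.sum_congr ?_ fun _ _ => rfl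
    ext i
    simp only [Finset.mem_Icc, Finset.mem_union]
    omega
  · rw [Finset.disjoint_left]
    intro i hi hj
    rw [Finset.mem_Icc] at hi hj
    omega

/-- The weighted oscillation. -/
theorem W2_le : ∃ C : ℝ, 0 < C ∧ ∀ v : V → V, SPV v → ∀ (x : V) (y : ℕ → V) (a : ℕ), 4 ≤ a →
    (∀ l, 4 ≤ l → l ≤ a → ‖x - y l‖ ≤ rr l) →
      W2 a x (fun z => v z - mo (rr a) v x) ≤ C * (RR (fun l => gF v (y l)) a + energy v) ∧
      W2 a x (fun z => v z - mo (rr a) v x) ≤ C * (rr a * (PP (fun l => gF v (y l)) a ^ 2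
        + rr a * energy v)) := by
  obtain ⟨C, hC, h⟩ := osc1
  obtain ⟨C', hC', h'⟩ := osc2
  obtain ⟨K, hK⟩ : ∃ K, K = 64 * (12 * C + 4 * (786432 * C')) := ⟨_, rfl⟩
  refine ⟨K, by rw [hK]; positivity, fun v hv x y a ha hy => ?_⟩
  obtain ⟨w, hw⟩ : ∃ w : V → V, w = fun z => v z - mo (rr a) v x := ⟨_, rfl⟩
  have hws : ContDiff ℝ ∞ w := by rw [hw]; exact hv.1.sub contDiff_const
  have h1 := W2_sum (by omega : 1 ≤ a) x hws
  rw [Icc_split ha] at h1
  rw [← hw]
  obtain ⟨P, hP⟩ : ∃ P, P = PP (fun l => gF v (y l)) a := ⟨_, rfl⟩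
  obtain ⟨R, hR⟩ : ∃ R, R = RR (fun l => gF v (y l)) a := ⟨_, rfl⟩
  have hg : ∀ l, 0 ≤ gF v (y l) := fun l => gF_nn v (y l)
  have hP0 : 0 ≤ P := by rw [hP]; exact PP_nn hg a
  have hR0 : 0 ≤ R := by rw [hR]; exact RR_nn a
  have hPR : rr a * P ^ 2 ≤ 4 * R := by rw [hP, hR]; exact PP_sq a
  have hen := energy_nn v
  have hra := rrp a
  have hra1 := rr_le1 a
  -- the coarse scales
  have h2 : ∑ i ∈ Finset.Icc 1 3, rr a ^ 2 * ((rr i ^ 6)⁻¹ * A2 x (rr i) w)
      ≤ 786432 * C' * (rr a ^ 2 * (energy v + P ^ 2)) := by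
    have h3 : ∀ i ∈ Finset.Icc 1 3, rr a ^ 2 * ((rr i ^ 6)⁻¹ * A2 x (rr i) w)
        ≤ 262144 * C' * (rr a ^ 2 * (energy v + P ^ 2)) := by
      intro i hi
      obtain ⟨hi1, hi2⟩ := Finset.mem_Icc.1 hi
      have h4 := h' v hv x y a ha hy i hi1
      rw [← hw, ← hP] at h4
      have h5 : (rr i ^ 6)⁻¹ ≤ 262144 := by
        have h6 : rr 3 ≤ rr i := rr_mono hi2
        have h7 : rr 3 ^ 6 ≤ rr i ^ 6 := pow_le_pow_left₀ (rrp 3).le h6 6
        have h8 : (rr i ^ 6)⁻¹ ≤ (rr 3 ^ 6)⁻¹ := inv_anti₀ (pow_pos (rrp 3) 6) h7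
        refine h8.trans (le_of_eq ?_)
        unfold rr
        norm_num
      have hA : 0 ≤ A2 x (rr i) w := integral_nonneg fun y => nsq_nn w y
      calc rr a ^ 2 * ((rr i ^ 6)⁻¹ * A2 x (rr i) w)
          ≤ rr a ^ 2 * (262144 * (C' * (energy v + P ^ 2))) := by
            apply mul_le_mul_of_nonneg_left _ (by positivity)
            exact mul_le_mul h5 h4 hA (by norm_num)
        _ = _ := by ring
    refine (Finset.sum_le_sum h3).trans (le_of_eq ?_)
    simp
    ring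
  have h3 : rr a ^ 2 * (energy v + P ^ 2) ≤ rr a * (P ^ 2 + rr a * energy v) := by
    have : rr a ^ 2 * P ^ 2 ≤ rr a * P ^ 2 := by
      apply mul_le_mul_of_nonneg_right _ (sq_nonneg _)
      nlinarith
    nlinarith
  constructor
  · have h4 : ∑ i ∈ Finset.Icc 4 a, rr a ^ 2 * ((rr i ^ 6)⁻¹ * A2 x (rr i) w)
        ≤ C * ∑ i ∈ Finset.Icc 4 a, (rr i)⁻¹ * SS (fun l => gF v (y l)) i a ^ 2 := by
      rw [Finset.mul_sum]
      refine Finset.sum_le_sum fun i hi => ?_
      obtain ⟨hi1, hi2⟩ := Finset.mem_Icc.1 hi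
      have hr := rrp i
      have h5 := h v hv x y a hy i hi1 hi2
      rw [← hw] at h5
      have h6 : rr a ^ 2 ≤ rr i ^ 2 := pow_le_pow_left₀ hra.le (rr_mono hi2) 2
      have hA : 0 ≤ A2 x (rr i) w := integral_nonneg fun y => nsq_nn w y
      calc rr a ^ 2 * ((rr i ^ 6)⁻¹ * A2 x (rr i) w)
          ≤ rr i ^ 2 * ((rr i ^ 6)⁻¹ * (C * (rr i ^ 3 * SS (fun l => gF v (y l)) i a ^ 2))) := by
            gcongr
        _ = _ := by field_simp
    have h5 := mul_le_mul_of_nonneg_left (SS_sum (g := fun l => gF v (y l)) a) hC.le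
    rw [← hR] at h5 ⊢
    have h6 : rr a * (P ^ 2 + rr a * energy v) ≤ 4 * R + energy v := by
      have : rr a * (rr a * energy v) ≤ 1 * (1 * energy v) := by gcongr
      nlinarith
    have h7 : 786432 * C' * (rr a ^ 2 * (energy v + P ^ 2)) ≤ 786432 * C' * (4 * R + energy v) :=
      mul_le_mul_of_nonneg_left (h3.trans h6) (by positivity)
    calc W2 a x w ≤ 64 * (786432 * C' * (4 * R + energy v) + C * (12 * R)) := by linarith
      _ ≤ K * (R + energy v) := by
        rw [hK]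
        have : 0 ≤ C * energy v := by positivity
        have : 0 ≤ C' * energy v := by positivity
        nlinarith
  · have h4 : ∑ i ∈ Finset.Icc 4 a, rr a ^ 2 * ((rr i ^ 6)⁻¹ * A2 x (rr i) w)
        ≤ C * (rr a * P ^ 2) * ∑ i ∈ Finset.Icc 4 a, (1 / 2 : ℝ) ^ (a - i) := by
      rw [Finset.mul_sum]
      refine Finset.sum_le_sum fun i hi => ?_
      obtain ⟨hi1, hi2⟩ := Finset.mem_Icc.1 hi
      have hr := rrp i
      have h5 := h v hv x y a hy i hi1 hi2
      rw [← hw] at h5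
      have hA : 0 ≤ A2 x (rr i) w := integral_nonneg fun y => nsq_nn w y
      have h6 : SS (fun l => gF v (y l)) i a ^ 2 ≤ (rr i * P) ^ 2 := by
        rw [hP]
        exact pow_le_pow_left₀ (SS_nn hg i a) (SS_le_PP hg a hi1) 2
      calc rr a ^ 2 * ((rr i ^ 6)⁻¹ * A2 x (rr i) w)
          ≤ rr a ^ 2 * ((rr i ^ 6)⁻¹ * (C * (rr i ^ 3 * (rr i * P) ^ 2))) := by
            apply mul_le_mul_of_nonneg_left _ (by positivity)
            apply mul_le_mul_of_nonneg_left _ (by positivity)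
            refine h5.trans ?_
            gcongr
        _ = C * (rr a * P ^ 2) * (rr a / rr i) := by field_simp
        _ = _ := by
          rw [rr_split hi2]
          field_simp
    have h5 := geoJ (1 / 2) (by norm_num) (by norm_num) 4 a
    have e2 : (1 - (1 / 2 : ℝ))⁻¹ = 2 := by norm_num
    rw [e2] at h5
    have h6 := mul_le_mul_of_nonneg_left h5 (by positivity : 0 ≤ C * (rr a * P ^ 2))
    have h7 : 786432 * C' * (rr a ^ 2 * (energy v + P ^ 2))
        ≤ 786432 * C' * (rr a * (P ^ 2 + rr a * energy v)) :=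
      mul_le_mul_of_nonneg_left h3 (by positivity)
    rw [← hP]
    obtain ⟨Z, hZ⟩ : ∃ Z, Z = rr a * (P ^ 2 + rr a * energy v) := ⟨_, rfl⟩
    have hZ1 : rr a * P ^ 2 ≤ Z := by
      rw [hZ]
      have : 0 ≤ rr a * (rr a * energy v) := by positivity
      nlinarith
    have hZ0 : 0 ≤ Z := le_trans (by positivity) hZ1
    rw [← hZ] at h7 ⊢
    have h8 : C * (rr a * P ^ 2) * 2 ≤ C * Z * 2 := by gcongr
    calc W2 a x w ≤ 64 * (786432 * C' * Z + C * Z * 2) := by linarith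
      _ ≤ K * Z := by
        rw [hK]
        have h9 : 0 ≤ C * Z := by positivity
        have h10 : 0 ≤ C' * Z := by positivity
        nlinarith

lemma NF_le {v : V → V} (hv : SPV v) (x : V) {a : ℕ} (ha : 4 ≤ a) :
    NF a (a - 4) v x ≤ 262144 * energy v := by
  unfold NF
  have hen := energy_nn v
  have h1 : ∀ k ∈ (Finset.range a).filter (fun k => a - 4 ≤ k),
      ((2 ^ k * rr a) ^ 4)⁻¹ * A2 x (2 ^ k * rr a) v ≤ 65536 * energy v := by
    intro k hk
    rw [Finset.mem_filter, Finset.mem_range] at hk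
    rw [pow_rr hk.1.le]
    have h2 : A2 x (rr (a - k)) v ≤ energy v := by
      refine (Pool.Agent.Y458.NS.A2_mono hv.1 (ball_subset_ball ?_)).trans
        (Pool.Agent.Y153.NS.ball_energy hv x)
      have : rr (a - k) ≤ rr 1 := rr_mono (by omega)
      have e : rr 1 = 1 / 2 := by unfold rr; norm_num
      linarith
    have h3 : (rr (a - k) ^ 4)⁻¹ ≤ 65536 := by
      have h6 : rr 4 ≤ rr (a - k) := rr_mono (by omega)
      have h7 : rr 4 ^ 4 ≤ rr (a - k) ^ 4 := pow_le_pow_left₀ (rrp 4).le h6 4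
      have h8 := inv_anti₀ (pow_pos (rrp 4) 4) h7
      refine h8.trans (le_of_eq ?_)
      unfold rr
      norm_num
    have hA : 0 ≤ A2 x (rr (a - k)) v := integral_nonneg fun y => nsq_nn v y
    exact mul_le_mul h3 h2 hA (by norm_num)
  refine (Finset.sum_le_sum h1).trans ?_
  rw [Finset.sum_const, nsmul_eq_mul]
  have h2 : ((Finset.range a).filter (fun k => a - 4 ≤ k)).card ≤ 4 := by
    have h3 : (Finset.range a).filter (fun k => a - 4 ≤ k) ⊆ Finset.Ico (a - 4) a := by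
      intro k hk
      rw [Finset.mem_filter, Finset.mem_range] at hk
      rw [Finset.mem_Ico]
      omega
    have h4 := Finset.card_le_card h3
    rw [Nat.card_Ico] at h4
    omega
  have h3 : (((Finset.range a).filter (fun k => a - 4 ≤ k)).card : ℝ) ≤ 4 := by exact_mod_cast h2
  calc _ ≤ 4 * (65536 * energy v) := mul_le_mul_of_nonneg_right h3 (by positivity)
    _ = _ := by ring

end Pool.Agent.Q193.NE
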