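import Pool.Agent.Q193.NE.Tim

/-!
The mean velocity at all scales in shrinking windows (helper193).
-/

set_option autoImplicit false

open MeasureTheory Set Metric Filter Topology
open scoped ContDiff ENNReal

namespace Pool.Agent.Q193.NE

open H459R3.NS W221.NS Pool.Agent.Y7 Pool.Agent.Y8 Pool.Agent.Y458.NS Pool.Agent.TH305.LG
open Pool.Agent.Y8.WS
open Pool.Agent.Q193.NS (rr_mono rr_le1 abs_le_B)

/-- The two comparisons. -/
theorem comp : ∃ C₀ c₀ : ℝ, 0 < c₀ ∧ c₀ ≤ C₀ ∧ ∀ a : ℕ, 4 ≤ a → ∃ κ : ℝ, c₀ ≤ κ ∧ κ ≤ C₀ ∧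
    ∀ (T E D : ℝ) (G : Set ℝ) (u : ℝ → V → V) (p : ℝ → V → ℝ), Turb 1 T E D G u p →
      ∀ (x : V) (y : ℕ → V), (∀ l, 4 ≤ l → l ≤ a → ‖x - y l‖ ≤ rr l) → ∀ τ ∈ G,
        ‖Mf a (u τ) x - κ • mo (rr a) (u τ) x‖
          ≤ C₀ * (rr a * PP (fun l => gF (u τ) (y l)) a + (1 + E ^ 2)) ∧
        hf a (u τ) x ≤ C₀ * (RR (fun l => gF (u τ) (y l)) a
          + (‖mo (rr a) (u τ) x‖ + 2 ^ a) * PP (fun l => gF (u τ) (y l)) a
          + ‖mo (rr a) (u τ) x‖ ^ 2 + 2 ^ a * (1 + E ^ 2)) := by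
  obtain ⟨CH, hCH, hH⟩ := HHb
  obtain ⟨CM, c₀, hc₀, hc₀C, hM⟩ := MNb
  have hCM : 0 < CM := hc₀.trans_le hc₀C
  refine ⟨3 * CH + CM, c₀, hc₀, by linarith, fun a ha => ?_⟩
  obtain ⟨κ, hκ1, hκ2, hκ⟩ := hM a ha
  refine ⟨κ, hκ1, by linarith, ?_⟩
  intro T E D G u p h x y hy τ hτ
  have hv := h.spv hτ
  have hdiv := h.divfree τ hτ
  have hen := h.energy_le τ hτ
  have hen0 := energy_nn (u τ)
  have hg : ∀ l, 0 ≤ gF (u τ) (y l) := fun l => gF_nn (u τ) (y l)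
  obtain ⟨P, hP⟩ : ∃ P, P = PP (fun l => gF (u τ) (y l)) a := ⟨_, rfl⟩
  obtain ⟨R, hR⟩ : ∃ R, R = RR (fun l => gF (u τ) (y l)) a := ⟨_, rfl⟩
  have hP0 : 0 ≤ P := by rw [hP]; exact PP_nn hg a
  have hR0 : 0 ≤ R := by rw [hR]; exact RR_nn a
  have hra := NE.rrp a
  constructor
  · rw [pi_norm_le_iff_of_nonneg (by rw [← hP]; positivity)]
    intro l
    have h1 := hκ (u τ) hv hdiv x y hy l
    rw [← hP] at h1 ⊢
    have e : (Mf a (u τ) x - κ • mo (rr a) (u τ) x) l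
        = MN (rr a) (u τ) x l - κ * mo (rr a) (u τ) x l := rfl
    rw [e, Real.norm_eq_abs]
    refine h1.trans ?_
    have h2 : rr a * P + (1 + energy (u τ)) ≤ rr a * P + (1 + E ^ 2) := by linarith
    have h3 : 0 ≤ rr a * P + (1 + E ^ 2) := by positivity
    calc CM * (rr a * P + (1 + energy (u τ))) ≤ CM * (rr a * P + (1 + E ^ 2)) :=
          mul_le_mul_of_nonneg_left h2 hCM.le
      _ ≤ (3 * CH + CM) * (rr a * P + (1 + E ^ 2)) :=
          mul_le_mul_of_nonneg_right (by linarith) h3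
  · have h1 := fun l => hH (u τ) hv hdiv x y a ha hy l
    rw [← hP, ← hR]
    simp only [← hP, ← hR] at h1
    obtain ⟨c, hc⟩ : ∃ c, c = ‖mo (rr a) (u τ) x‖ := ⟨_, rfl⟩
    have hc0 : 0 ≤ c := by rw [hc]; exact norm_nonneg _
    rw [← hc]
    simp only [← hc] at h1
    obtain ⟨Q, hQ⟩ : ∃ Q, Q = R + (c + 2 ^ a) * P + c ^ 2 + 2 ^ a * (1 + E ^ 2) := ⟨_, rfl⟩
    rw [← hQ]
    have hQ0 : 0 ≤ Q := by rw [hQ]; positivity
    have h2 : ∀ l, |HH (rr a) (u τ) x l| ≤ CH * Q := by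
      intro l
      refine (h1 l).trans (mul_le_mul_of_nonneg_left ?_ hCH.le)
      rw [hQ]
      have h3 : (2 : ℝ) ^ a * (1 + energy (u τ)) ≤ 2 ^ a * (1 + E ^ 2) :=
        mul_le_mul_of_nonneg_left (by linarith) (by positivity)
      linarith
    unfold hf
    have h3 : ∑ l, |HH (rr a) (u τ) x l| ≤ ∑ _l : Fin 3, CH * Q :=
      Finset.sum_le_sum fun l _ => h2 l
    simp at h3
    have h4 : 0 ≤ CM * Q := by positivity
    linarith

/-- The size of the errors. -/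
noncomputable def dd (n a : ℕ) : ℝ := (3 / 4) ^ (n - a) + 1 / n

lemma dd_nn (n a : ℕ) : 0 ≤ dd n a := by unfold dd; positivity

lemma dd_le {n a : ℕ} (hn : 1 ≤ n) : dd n a ≤ 2 := by
  unfold dd
  have h1 : ((3 : ℝ) / 4) ^ (n - a) ≤ 1 := pow_le_one₀ (by norm_num) (by norm_num)
  have h2 : (1 : ℝ) / n ≤ 1 := by
    rw [div_le_one (by positivity)]
    exact_mod_cast hn
  linarith

lemma dd_sum {n a : ℕ} (hn : 4 ≤ n) (ha : a ≤ n) : ∑ l ∈ Finset.Icc 4 a, dd n l ≤ 5 := by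
  unfold dd
  rw [Finset.sum_add_distrib]
  have h1 : ∑ l ∈ Finset.Icc 4 a, ((3 : ℝ) / 4) ^ (n - l) ≤ 4 := by
    refine (Finset.sum_le_sum_of_subset_of_nonneg (Finset.Icc_subset_Icc_right ha)
      fun _ _ _ => by positivity).trans ?_
    refine (geoJ (3 / 4) (by norm_num) (by norm_num) 4 n).trans ?_
    norm_num
  have h2 : ∑ _l ∈ Finset.Icc 4 a, (1 : ℝ) / n ≤ 1 := by
    rw [Finset.sum_const, Nat.card_Icc, nsmul_eq_mul, mul_one_div, div_le_one (by positivity)]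
    have : a + 1 - 4 ≤ n := by omega
    exact_mod_cast this
  linarith

/-- The smallness conditions. -/
lemma arith1 {ra rn A N sN nn B E Km S σ L : ℝ} (hra : 0 < ra) (hra1 : ra ≤ 1) (hrn : 0 < rn)
    (hle : rn ≤ ra) (hN : N * rn = 1) (hA : A * ra = 1) (hsN : sN ^ 2 = N) (hsN0 : 0 ≤ sN)
    (hnn : 1 ≤ nn) (hB : 1 ≤ B) (hEB : |E| ≤ B) (hKm : 0 < Km) (hS : 2048 * (1 + Km) ≤ S)
    (hσ0 : 0 < σ) (hσ1 : σ ≤ 1) (hsm : S * nn * B ^ 2 ≤ σ * sN)
    (hL : L = Km * |E| / √(ra ^ 3)) :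
    L * ra ≤ N ∧ 2 * (1024 * (ra * rn)) * L ≤ σ / nn ∧ B ≤ σ * N / nn ∧ B ≤ N ∧
      2 * (1024 * (ra * rn)) * (A * B) ≤ σ * N / nn := by
  have hN0 : 0 < N := by
    by_contra hc
    push Not at hc
    nlinarith
  have hN1 : 1 ≤ N := by
    have : rn ≤ 1 := hle.trans hra1
    nlinarith
  have hsN1 : 1 ≤ sN := by nlinarith
  have hsNN : sN ≤ N := by nlinarith
  have hsr : 0 < √ra := Real.sqrt_pos.2 hra
  have hsr2 : √ra * √ra = ra := Real.mul_self_sqrt hra.le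
  have hr3 : √(ra ^ 3) = ra * √ra := by
    rw [show ra ^ 3 = ra ^ 2 * ra by ring, Real.sqrt_mul (by positivity), Real.sqrt_sq hra.le]
  have hprod : 1 ≤ sN * √ra := by
    have h1 : 1 ≤ (sN * √ra) ^ 2 := by
      rw [mul_pow, hsN, Real.sq_sqrt hra.le]
      calc (1 : ℝ) = N * rn := hN.symm
        _ ≤ N * ra := mul_le_mul_of_nonneg_left hle hN0.le
    have h2 : 0 ≤ sN * √ra := by positivity
    nlinarith
  have hLra : L * ra ≤ Km * B * sN := by
    have e : L * ra = Km * |E| / √ra := by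
      rw [hL, hr3]
      field_simp
    rw [e, div_le_iff₀ hsr]
    have h1 : Km * |E| ≤ Km * B := mul_le_mul_of_nonneg_left hEB hKm.le
    have h2 : Km * B * 1 ≤ Km * B * (sN * √ra) :=
      mul_le_mul_of_nonneg_left hprod (by positivity)
    nlinarith
  have hSB : 2048 * (1 + Km) * nn * B ≤ σ * sN := by
    refine le_trans ?_ hsm
    have h1 : B ≤ B ^ 2 := by nlinarith
    have h2 : 0 ≤ S := by nlinarith
    calc 2048 * (1 + Km) * nn * B ≤ S * nn * B := by gcongr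
      _ ≤ S * nn * B ^ 2 := by gcongr
  have hKB : 2048 * Km * nn * B ≤ σ * sN := by
    have : 0 ≤ 2048 * nn * B := by positivity
    linarith
  have hBB : 2048 * nn * B ≤ σ * sN := by
    have : 0 ≤ 2048 * Km * nn * B := by positivity
    linarith
  have hBN : B ≤ σ * N / nn := by
    rw [le_div_iff₀ (by linarith)]
    have h1 : σ * sN ≤ σ * N := mul_le_mul_of_nonneg_left hsNN hσ0.le
    have h2 : 0 ≤ nn * B := by positivity
    linarith
  have hσN : σ * N / nn ≤ N := by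
    rw [div_le_iff₀ (by linarith)]
    nlinarith
  have hrnN : rn = 1 / N := by
    rw [eq_div_iff hN0.ne']
    linarith
  refine ⟨?_, ?_, hBN, hBN.trans hσN, ?_⟩
  · refine hLra.trans ?_
    have h1 : Km * B ≤ σ * sN := by
      have h2 : Km * B ≤ 2048 * Km * nn * B := by
        have h3 : 1 * 1 ≤ 2048 * nn := by nlinarith
        have h4 : 0 ≤ Km * B := by positivity
        nlinarith
      linarith
    calc Km * B * sN ≤ σ * sN * sN := mul_le_mul_of_nonneg_right h1 hsN0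
      _ = σ * N := by rw [mul_assoc, ← sq, hsN]
      _ ≤ 1 * N := mul_le_mul_of_nonneg_right hσ1 hN0.le
      _ = N := one_mul N
  · rw [le_div_iff₀ (by linarith)]
    have h1 : 2 * (1024 * (ra * rn)) * L * nn = 2048 * nn * rn * (L * ra) := by ring
    rw [h1]
    calc 2048 * nn * rn * (L * ra) ≤ 2048 * nn * rn * (Km * B * sN) :=
          mul_le_mul_of_nonneg_left hLra (by positivity)
      _ = (2048 * Km * nn * B) * (sN * rn) := by ring
      _ ≤ (σ * sN) * (sN * rn) := mul_le_mul_of_nonneg_right hKB (by positivity)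
      _ = σ * (sN ^ 2 * rn) := by ring
      _ = σ := by rw [hsN, hN, mul_one]
  · have h1 : 2 * (1024 * (ra * rn)) * (A * B) = 2048 * rn * B * (A * ra) := by ring
    rw [h1, hA, mul_one, le_div_iff₀ (by linarith)]
    have h2 : 2048 * rn * B * nn = 2048 * nn * B * rn := by ring
    rw [h2]
    have hrn1 : rn ≤ 1 := hle.trans hra1
    calc 2048 * nn * B * rn ≤ σ * sN * 1 := mul_le_mul hBB hrn1 hrn.le (by positivity)
      _ = σ * sN := mul_one _
      _ ≤ σ * N := mul_le_mul_of_nonneg_left hsNN hσ0.le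

/-- The bound of the remainder. -/
lemma arith2 {C₀ c₀ k ra A N nn B σ L w x : ℝ} (hC₀ : 0 < C₀) (hc₀ : 0 < c₀)
    (hk : k = C₀ / c₀) (hx : 0 ≤ x)
    (hAN : A ≤ N) (hB0 : 0 ≤ B) (hσ0 : 0 < σ) (hσ1 : σ ≤ 1) (hN : 0 ≤ N) (hL : 0 ≤ L)
    (hw : 0 ≤ w) (hnn : 0 < nn)
    (f1 : L * ra ≤ N) (f2 : 2 * w * L ≤ σ / nn) (f4 : B ≤ N)
    (f5 : 2 * w * (A * B) ≤ σ * N / nn) :
    C₀ * ((1 + 4 * C₀ / c₀) * (4 * σ ^ 2 * N * x) + (A + C₀ * B / c₀) * (4 * σ * x)
      + 2 * w * (A * B) + L / c₀ * (C₀ * (ra * (4 * σ * x) + 2 * w * B)))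
      ≤ C₀ * ((8 + 24 * k) * (σ * N * (x + 1 / nn))) := by
  have hk0 : 0 < k := by rw [hk]; positivity
  apply mul_le_mul_of_nonneg_left _ hC₀.le
  have e1 : 1 + 4 * C₀ / c₀ = 1 + 4 * k := by rw [hk]; ring
  have e2 : C₀ * B / c₀ = k * B := by rw [hk]; ring
  have e3 : L / c₀ * (C₀ * (ra * (4 * σ * x) + 2 * w * B))
      = k * (L * ra * (4 * σ * x) + 2 * w * L * B) := by
    rw [hk]
    field_simp
  rw [e1, e2, e3]
  have hσx : 0 ≤ 4 * σ * x := by positivity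
  have t1 : 4 * σ ^ 2 * N * x ≤ 4 * σ * N * x := by
    have h1 : σ ^ 2 ≤ σ := by nlinarith
    have h2 : 0 ≤ 4 * N * x := by positivity
    nlinarith
  have t1' : (1 + 4 * k) * (4 * σ ^ 2 * N * x) ≤ (1 + 4 * k) * (4 * σ * N * x) :=
    mul_le_mul_of_nonneg_left t1 (by positivity)
  have t2 : (A + k * B) * (4 * σ * x) ≤ (N + k * N) * (4 * σ * x) := by
    apply mul_le_mul_of_nonneg_right _ hσx
    have := mul_le_mul_of_nonneg_left f4 hk0.le
    linarith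
  have t3 : L * ra * (4 * σ * x) ≤ N * (4 * σ * x) := mul_le_mul_of_nonneg_right f1 hσx
  have hsn : 0 ≤ σ / nn := by positivity
  have t4 : 2 * w * L * B ≤ σ / nn * N :=
    mul_le_mul f2 f4 hB0 hsn
  have t5 : k * (L * ra * (4 * σ * x) + 2 * w * L * B)
      ≤ k * (N * (4 * σ * x) + σ / nn * N) := mul_le_mul_of_nonneg_left (by linarith) hk0.le
  have e4 : σ * N / nn = σ / nn * N := by ring
  have e5 : σ * N * (x + 1 / nn) = σ * N * x + σ / nn * N := by ring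
  rw [e4] at f5
  rw [e5]
  have p1 : 0 ≤ σ / nn * N := by positivity
  have p2 : 0 ≤ k * (σ / nn * N) := by positivity
  nlinarith

/-- A time at which the function is at most its mean. -/
lemma gtime {G I : Set ℝ} (hI0 : MeasurableSet I) (hIf : volume I ≠ ⊤)
    (hI : I ≤ᵐ[volume] G) {f : ℝ → ℝ} (hf : IntegrableOn f I) {Q L : ℝ} (hQ : ∫ t in I, f t ≤ Q)
    (hL0 : 0 < L) (hL : volume.real I = L) : ∃ s ∈ I ∩ G, f s ≤ Q / L := by
  have hv : (volume : Measure ℝ).restrict (I ∩ G) = volume.restrict I := by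
    apply Measure.restrict_congr_set
    filter_upwards [hI] with t ht
    apply propext
    exact ⟨fun h1 => h1.1, fun h1 => ⟨h1, ht h1⟩⟩
  have hvr : volume (I ∩ G) = volume I := by
    have := congrArg (fun μ : Measure ℝ => μ univ) hv
    simpa using this
  have hpos : volume (I ∩ G) ≠ 0 := by
    rw [hvr]
    intro h0
    have : volume.real I = 0 := by
      rw [measureReal_def, h0, ENNReal.toReal_zero]
    rw [hL] at this
    linarith
  obtain ⟨s, hs, hs2⟩ := exists_le_setAverage hpos (by rw [hvr]; exact hIf)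
    (hf.mono_set inter_subset_left)
  refine ⟨s, hs, hs2.trans ?_⟩
  rw [setAverage_eq, measureReal_def, hvr, ← measureReal_def, hL, hv, smul_eq_mul,
    inv_mul_eq_div]
  exact div_le_div_of_nonneg_right hQ hL0.le

end Pool.Agent.Q193.NE
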