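import Pool.Agent.Q193.NE.Chain

/-!
The induction over the scales (helper193).
-/

set_option autoImplicit false

open MeasureTheory Set Metric Filter Topology
open scoped ContDiff ENNReal

namespace Pool.Agent.Q193.NE

open H459R3.NS W221.NS Pool.Agent.Y7 Pool.Agent.Y8 Pool.Agent.Y458.NS Pool.Agent.TH305.LG
open Pool.Agent.Y8.WS
open Pool.Agent.Q193.NS (rr_mono rr_le1 abs_le_B)

/-- The real inequality of one step. -/
lemma arith3 {C₀ c₀ k κ K₁ lm Z X B c Ms Mt ct e p q : ℝ} (hC₀ : 0 < C₀) (hc₀ : 0 < c₀)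
    (hk : k = C₀ / c₀) (hκ : c₀ ≤ κ) (hK₁ : 0 ≤ K₁) (hX : 0 ≤ X) (hB : 0 ≤ B)
    (hlm0 : 0 ≤ lm) (hlm1 : 2 * lm ≤ 1) (hZ : Z ≤ C₀ * ((8 + 24 * k) * X))
    (hc : c ≤ B + K₁ * p + K₁ * e) (hpe : p + e ≤ X) (hM : Ms ≤ κ * c + C₀ * (p + e))
    (hMt : Mt ≤ Ms + 2 * lm * Ms + 2 * Z) (hct : κ * ct ≤ Mt + C₀ * (q + e)) (hq : 0 ≤ q + e) :
    ct ≤ (1 + 2 * lm) * B + (2 * K₁ + 18 * k + 48 * k ^ 2) * X + k * (q + e) := by
  have hκ0 : 0 < κ := hc₀.trans_le hκ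
  have hk0 : 0 < k := by rw [hk]; positivity
  have hCk : C₀ = k * c₀ := by rw [hk]; field_simp
  have hCκ : C₀ ≤ k * κ := by rw [hCk]; exact mul_le_mul_of_nonneg_left hκ hk0.le
  have h1 : Ms ≤ κ * (B + K₁ * X + k * X) := by
    have h2 : c ≤ B + K₁ * X := by nlinarith
    have h3 : κ * c ≤ κ * (B + K₁ * X) := mul_le_mul_of_nonneg_left h2 hκ0.le
    have h4 : C₀ * (p + e) ≤ C₀ * X := mul_le_mul_of_nonneg_left hpe hC₀.le
    have h5 : C₀ * X ≤ k * κ * X := mul_le_mul_of_nonneg_right hCκ hX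
    nlinarith
  have h2 : Mt ≤ (1 + 2 * lm) * (κ * (B + K₁ * X + k * X)) + 2 * (k * κ * ((8 + 24 * k) * X)) := by
    have h3 : (1 + 2 * lm) * Ms ≤ (1 + 2 * lm) * (κ * (B + K₁ * X + k * X)) :=
      mul_le_mul_of_nonneg_left h1 (by linarith)
    have h4 : Z ≤ k * κ * ((8 + 24 * k) * X) :=
      hZ.trans (mul_le_mul_of_nonneg_right hCκ (by positivity))
    nlinarith
  have h3 : κ * ct ≤ κ * ((1 + 2 * lm) * B + (2 * K₁ + 18 * k + 48 * k ^ 2) * X
      + k * (q + e)) := by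
    have h4 : C₀ * (q + e) ≤ k * κ * (q + e) := mul_le_mul_of_nonneg_right hCκ hq
    have h5 : (1 + 2 * lm) * (κ * (B + K₁ * X + k * X))
        ≤ κ * ((1 + 2 * lm) * B) + κ * (2 * (K₁ + k) * X) := by
      have h6 : (1 + 2 * lm) * (κ * ((K₁ + k) * X)) ≤ 2 * (κ * ((K₁ + k) * X)) :=
        mul_le_mul_of_nonneg_right (by linarith) (by positivity)
      have e1 : (1 + 2 * lm) * (κ * (B + K₁ * X + k * X))
          = κ * ((1 + 2 * lm) * B) + (1 + 2 * lm) * (κ * ((K₁ + k) * X)) := by ring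
      rw [e1]
      linarith
    have e2 : κ * ((1 + 2 * lm) * B + (2 * K₁ + 18 * k + 48 * k ^ 2) * X + k * (q + e))
        = κ * ((1 + 2 * lm) * B) + κ * (2 * (K₁ + k) * X) + 2 * (k * κ * ((8 + 24 * k) * X))
          + k * κ * (q + e) := by ring
    rw [e2]
    linarith
  exact le_of_mul_le_mul_left h3 hκ0

/-- One step of the induction. -/
theorem onestep : ∃ k S σ₀ : ℝ, 0 < k ∧ 1 ≤ S ∧ 0 < σ₀ ∧ σ₀ ≤ 1 ∧ ∀ (T E D : ℝ) (G : Set ℝ)
    (u : ℝ → V → V) (p : ℝ → V → ℝ), Turb 1 T E D G u p → ∀ (σ : ℝ), 0 < σ → σ ≤ σ₀ →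
      ∀ (n a : ℕ), 4 ≤ a → a ≤ n → S * n * (1 + E ^ 2) ^ 2 ≤ σ * √(2 ^ n) →
      ∀ (t₀ : ℝ) (x₀ : V) (y : ℕ → V), 0 < t₀ - 1024 * (rr 4 * rr n) →
        t₀ + 1024 * (rr 4 * rr n) < T → Gd σ G u n t₀ x₀ y → ∀ (B K₁ : ℝ), 0 ≤ B → 0 ≤ K₁ →
        (∀ s ∈ Wi n a t₀ ∩ G, ‖mo (rr a) (u s) x₀‖
          ≤ B + K₁ * (rr a * PP (fun l => gF (u s) (y l)) a) + K₁ * (1 + E ^ 2)) →
        ∀ t ∈ Wi n a t₀ ∩ G, ‖mo (rr a) (u t) x₀‖
          ≤ (1 + 8 * k * (σ * dd n a)) * B + (2 * K₁ + 18 * k + 48 * k ^ 2) * (σ * 2 ^ n * dd n a)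
            + k * (rr a * PP (fun l => gF (u t) (y l)) a + (1 + E ^ 2)) := by
  obtain ⟨C₀, c₀, hc₀, hc₀C, hcomp⟩ := comp
  obtain ⟨Km, hKm, hmo⟩ := mo_bd
  have hC₀ : 0 < C₀ := hc₀.trans_le hc₀C
  obtain ⟨k, hk⟩ : ∃ k, k = C₀ / c₀ := ⟨_, rfl⟩
  have hk0 : 0 < k := by rw [hk]; positivity
  have hk1 : 1 ≤ k := by rw [hk, le_div_iff₀ hc₀]; linarith
  refine ⟨k, 2048 * (1 + Km), 1 / (16 * k), hk0, by nlinarith, by positivity, ?_, ?_⟩
  · rw [div_le_one (by positivity)]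
    linarith
  intro T E D G u p h σ hσ0 hσ n a ha han hS t₀ x₀ y ht1 ht2 hg B K₁ hB hK₁ hpre t ht
  obtain ⟨κ, hκ1, hκ2, hcm⟩ := hcomp a ha
  have hcm' := hcm T E D G u p h x₀ y fun l hl hla => (hg l hl (hla.trans han)).1
  have hσ16 : 16 * k * σ ≤ 1 := by
    rw [le_div_iff₀ (by positivity)] at hσ
    linarith
  have hσ1 : σ ≤ 1 := by nlinarith
  have hn4 : 4 ≤ n := ha.trans han
  have hra := NE.rrp a
  have hrn := NE.rrp n
  have hra1 := rr_le1 a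
  have hWT : Wi n 4 t₀ ⊆ Ioo 0 T := fun τ hτ => ⟨ht1.trans hτ.1, hτ.2.trans ht2⟩
  have hsub : Wi n a t₀ ⊆ Wi n 4 t₀ := Wi_mono ha t₀
  have hae := sub_ae h (hsub.trans hWT)
  obtain ⟨⟨iP, hP⟩, iR, hR⟩ := gd_int h hσ0.le hg hWT ha han
  obtain ⟨x, hx⟩ : ∃ x : ℝ, x = (3 / 4) ^ (n - a) := ⟨_, rfl⟩
  have hx0 : 0 ≤ x := by rw [hx]; positivity
  rw [← hx] at hP hR
  obtain ⟨w, hw⟩ : ∃ w : ℝ, w = 1024 * (rr a * rr n) := ⟨_, rfl⟩
  have hw0 : 0 < w := by rw [hw]; positivity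
  obtain ⟨L, hL⟩ : ∃ L, L = Km * |E| / √(rr a ^ 3) := ⟨_, rfl⟩
  have hL0 : 0 ≤ L := by rw [hL]; positivity
  have hnn1 : (1 : ℝ) ≤ n := by
    have : 1 ≤ n := by omega
    exact_mod_cast this
  have hE1 : 1 ≤ 1 + E ^ 2 := by linarith [sq_nonneg E]
  have h2a : (2 : ℝ) ^ a ≤ 2 ^ n := pow_le_pow_right₀ (by norm_num) han
  obtain ⟨f1, f2, f3, f4, f5⟩ := arith1 (ra := rr a) (rn := rr n) (A := 2 ^ a) (N := 2 ^ n)
    (sN := √(2 ^ n)) (nn := n) (B := 1 + E ^ 2) (E := E) (Km := Km) (S := 2048 * (1 + Km))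
    (σ := σ) (L := L) hra hra1 hrn (rr_mono han) (NE.two_rr n) (NE.two_rr a)
    (Real.sq_sqrt (by positivity)) (Real.sqrt_nonneg _) hnn1 hE1 (abs_le_B E) hKm le_rfl hσ0 hσ1
    hS hL
  rw [← hw] at f2 f5
  have hlam : k * (4 * σ * x + 2 * w * L) ≤ 4 * k * (σ * dd n a) := by
    have e : 4 * k * (σ * dd n a) = k * (4 * σ * x + 4 * (σ / n)) := by
      unfold dd
      rw [hx]
      ring
    rw [e]
    apply mul_le_mul_of_nonneg_left _ hk0.le
    have : 0 ≤ σ / n := by positivity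
    linarith
  have hlam2 : 4 * k * (σ * dd n a) ≤ 1 / 2 := by
    have h1 : dd n a ≤ 2 := dd_le (by omega)
    have h2 : 4 * k * (σ * dd n a) ≤ 4 * k * (σ * 2) := by
      apply mul_le_mul_of_nonneg_left _ (by positivity)
      exact mul_le_mul_of_nonneg_left h1 hσ0.le
    linarith
  obtain ⟨lm, hlm⟩ : ∃ l, l = k * (4 * σ * x + 2 * w * L) := ⟨_, rfl⟩
  have hlm0 : 0 ≤ lm := by rw [hlm]; positivity
  have hZb := arith2 (C₀ := C₀) (c₀ := c₀) (k := k) (ra := rr a) (A := 2 ^ a) (N := 2 ^ n)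
    (nn := n) (B := 1 + E ^ 2) (σ := σ) (L := L) (w := w) (x := x) hC₀ hc₀ hk hx0 h2a
    (by positivity) hσ0 hσ1 (by positivity) hL0 hw0.le (by linarith) f1 f2 f4 f5
  have hsup := sup2 (r := rr a) (q := 2 ^ a) (w := w) (p := 4 * σ * x)
    (ρ := 4 * σ ^ 2 * 2 ^ n * x) (L := L) (κ := κ) (C₀ := C₀) (c₀ := c₀) (e := 1 + E ^ 2)
    (t₀ := t₀) (G := G) (M := fun τ => Mf a (u τ) x₀) (c := fun τ => mo (rr a) (u τ) x₀)
    (h := fun τ => hf a (u τ) x₀) (P := fun τ => PP (fun l => gF (u τ) (y l)) a)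
    (R := fun τ => RR (fun l => gF (u τ) (y l)) a) (I := Wi n a t₀) (by rw [hw]; rfl) hra
    (by positivity) hw0 hL0 hc₀ hκ1 hC₀ (by linarith) (by
      refine measure_mono_null ?_ h.fullG
      exact fun τ hτ => ⟨(hsub.trans hWT) hτ.1, hτ.2⟩)
    (fun τ => PP_nn (fun l => gF_nn _ _) a) (fun τ => RR_nn a) iP iR (by
      have h1 := hf_int h a x₀ (α := t₀ - 1024 * (rr a * rr n)) (β := t₀ + 1024 * (rr a * rr n))
        (by
          have := mul_le_mul_of_nonneg_right (rr_mono ha) hrn.le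
          linarith) (by
          have := mul_le_mul_of_nonneg_right (rr_mono ha) hrn.le
          linarith) (by
          rw [← hw]
          linarith)
      exact h1) hP hR (fun τ => PP_sq a)
    (fun s hs t ht hst => (Mf_diff h a x₀ hs.2 ht.2 hst).2) (fun τ => hf_nn _ _ _)
    (fun τ hτ => (hcm' τ hτ.2).2) (fun τ hτ => (hcm' τ hτ.2).1)
    (fun τ hτ => by
      rw [hL]
      exact hmo E (u τ) (h.spv hτ.2) (h.energy_le τ hτ.2) (rr a) x₀ hra hra1)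
    (by
      rw [← hk]
      linarith)
  rw [← hk, ← hlm] at hsup
  -- the good time
  obtain ⟨s, hs, hs2⟩ := gtime (Wi_meas n a t₀) (Wi_fin n a t₀) hae iP hP
    (by positivity : 0 < 2 * w) (by rw [hw]; exact Wi_vol n a t₀)
  have h1 := hsup s hs t ht
  have hn0 : (0 : ℝ) < n := by linarith
  have hgood : rr a * PP (fun l => gF (u s) (y l)) a ≤ σ * 2 ^ n * x := by
    have h3 := mul_le_mul_of_nonneg_left hs2 hra.le
    refine h3.trans ?_
    have e : rr a * (4 * σ * x / (2 * w)) = σ * (rr n)⁻¹ * x / 512 := by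
      rw [hw]
      field_simp
      ring
    rw [e, two_rr_inv]
    have : 0 ≤ σ * 2 ^ n * x := by positivity
    linarith
  have hX : σ * 2 ^ n * dd n a = σ * 2 ^ n * (x + 1 / n) := by
    unfold dd
    rw [hx]
  have h3 := arith3 (C₀ := C₀) (c₀ := c₀) (k := k) (κ := κ) (K₁ := K₁) (lm := lm)
    (X := σ * 2 ^ n * dd n a) (B := B) (c := ‖mo (rr a) (u s) x₀‖) (Ms := ‖Mf a (u s) x₀‖)
    (Mt := ‖Mf a (u t) x₀‖) (ct := ‖mo (rr a) (u t) x₀‖) (e := 1 + E ^ 2)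
    (p := rr a * PP (fun l => gF (u s) (y l)) a) (q := rr a * PP (fun l => gF (u t) (y l)) a)
    hC₀ hc₀ hk hκ1 hK₁ (by
      have := dd_nn n a
      positivity) hB hlm0 (by linarith) (hZb.trans_eq (by rw [hX]))
    (hpre s hs) (by
      rw [hX]
      have e : σ * 2 ^ n * (x + 1 / n) = σ * 2 ^ n * x + σ * 2 ^ n / n := by
        ring
      rw [e]
      linarith) (by
      have h4 := (hcm' s hs.2).1
      have h5 : ‖Mf a (u s) x₀‖ ≤ ‖κ • mo (rr a) (u s) x₀‖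
          + ‖Mf a (u s) x₀ - κ • mo (rr a) (u s) x₀‖ := by
        have := norm_add_le (κ • mo (rr a) (u s) x₀) (Mf a (u s) x₀ - κ • mo (rr a) (u s) x₀)
        rwa [add_sub_cancel] at this
      rw [norm_smul, Real.norm_eq_abs, abs_of_pos (hc₀.trans_le hκ1)] at h5
      linarith) (by
      have h4 : ‖Mf a (u t) x₀‖ ≤ ‖Mf a (u s) x₀‖ + ‖Mf a (u t) x₀ - Mf a (u s) x₀‖ := by
        have := norm_add_le (Mf a (u s) x₀) (Mf a (u t) x₀ - Mf a (u s) x₀)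
        rwa [add_sub_cancel] at this
      linarith) (by
      have h4 := (hcm' t ht.2).1
      have h5 : ‖κ • mo (rr a) (u t) x₀‖ ≤ ‖Mf a (u t) x₀‖
          + ‖Mf a (u t) x₀ - κ • mo (rr a) (u t) x₀‖ := by
        calc ‖κ • mo (rr a) (u t) x₀‖
            = ‖Mf a (u t) x₀ - (Mf a (u t) x₀ - κ • mo (rr a) (u t) x₀)‖ := by
              rw [sub_sub_cancel]
          _ ≤ _ := norm_sub_le _ _
      rw [norm_smul, Real.norm_eq_abs, abs_of_pos (hc₀.trans_le hκ1)] at h5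
      linarith) (by
      have := PP_nn (g := fun l => gF (u t) (y l)) (fun l => gF_nn _ _) a
      positivity)
  refine h3.trans ?_
  have h4 : (1 + 2 * lm) * B ≤ (1 + 8 * k * (σ * dd n a)) * B :=
    mul_le_mul_of_nonneg_right (by linarith) hB
  linarith

/-- The bound of the mean velocity at all scales. -/
theorem chainb : ∃ k K₃ S σ₀ : ℝ, 0 < k ∧ 0 < K₃ ∧ 1 ≤ S ∧ 0 < σ₀ ∧ σ₀ ≤ 1 ∧ ∀ (T E D : ℝ)
    (G : Set ℝ) (u : ℝ → V → V) (p : ℝ → V → ℝ), Turb 1 T E D G u p → ∀ (σ : ℝ), 0 < σ →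
      σ ≤ σ₀ → ∀ (n : ℕ), 4 ≤ n → S * n * (1 + E ^ 2) ^ 2 ≤ σ * √(2 ^ n) →
      ∀ (t₀ : ℝ) (x₀ : V) (y : ℕ → V), 0 < t₀ - 1024 * (rr 4 * rr n) →
        t₀ + 1024 * (rr 4 * rr n) < T → Gd σ G u n t₀ x₀ y → ∀ a, 4 ≤ a → a ≤ n →
        ∀ t ∈ Wi n a t₀ ∩ G, ‖mo (rr a) (u t) x₀‖
          ≤ K₃ * (σ * 2 ^ n * ∑ l ∈ Finset.Icc 4 a, dd n l)
            + k * (rr a * PP (fun l => gF (u t) (y l)) a + (1 + E ^ 2)) := by
  obtain ⟨k, S, σ₀, hk, hS1, hσ₀, hσ₀1, hone⟩ := onestep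
  obtain ⟨K, hK, hch⟩ := chain
  obtain ⟨Km, hKm, hmo⟩ := mo_bd
  obtain ⟨K₁, hK₁⟩ : ∃ K₁, K₁ = 2 * k + K + 64 * Km := ⟨_, rfl⟩
  have hK₁0 : 0 < K₁ := by rw [hK₁]; positivity
  obtain ⟨K₂, hK₂⟩ : ∃ K₂, K₂ = 2 * K₁ + 18 * k + 48 * k ^ 2 := ⟨_, rfl⟩
  have hK₂0 : 0 < K₂ := by rw [hK₂]; positivity
  have hK₂k : 8 * k ≤ K₂ := by
    rw [hK₂]
    have : 0 ≤ 2 * K₁ + 10 * k + 48 * k ^ 2 := by positivity
    linarith
  refine ⟨k, 2 * K₂, S, min σ₀ (1 / (10 * K₂)), hk, by positivity, hS1,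
    lt_min hσ₀ (by positivity), (min_le_left _ _).trans hσ₀1, ?_⟩
  intro T E D G u p h σ hσ0 hσ n hn4 hS t₀ x₀ y ht1 ht2 hg a ha
  have hσ' : σ ≤ σ₀ := hσ.trans (min_le_left _ _)
  have hσ'' : 10 * K₂ * σ ≤ 1 := by
    have := hσ.trans (min_le_right _ _)
    rw [le_div_iff₀ (by positivity)] at this
    linarith
  have hE0 : 0 ≤ 1 + E ^ 2 := by positivity
  induction a, ha using Nat.le_induction with
  | base =>
    intro _ t ht
    have h1 := hone T E D G u p h σ hσ0 hσ' n 4 le_rfl hn4 hS t₀ x₀ y ht1 ht2 hg 0 K₁ le_rfl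
      hK₁0.le (by
        intro s hs
        have h2 := hmo E (u s) (h.spv hs.2) (h.energy_le s hs.2) (rr 4) x₀ (NE.rrp 4) (rr_le1 4)
        have e1 : √(rr 4 ^ 3) = 1 / 64 := by
          have : rr 4 ^ 3 = (1 / 64) ^ 2 := by unfold rr; norm_num
          rw [this, Real.sqrt_sq (by norm_num)]
        rw [e1] at h2
        have h3 : Km * |E| / (1 / 64) = 64 * Km * |E| := by ring
        rw [h3] at h2
        have h4 : 64 * Km * |E| ≤ 64 * Km * (1 + E ^ 2) :=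
          mul_le_mul_of_nonneg_left (abs_le_B E) (by positivity)
        have h5 : 64 * Km * (1 + E ^ 2) ≤ K₁ * (1 + E ^ 2) := by
          apply mul_le_mul_of_nonneg_right _ hE0
          rw [hK₁]
          have : 0 ≤ 2 * k + K := by positivity
          linarith
        have h6 := PP_nn (g := fun l => gF (u s) (y l)) (fun l => gF_nn _ _) 4
        have h7 : 0 ≤ K₁ * (rr 4 * PP (fun l => gF (u s) (y l)) 4) := by
          have := NE.rrp 4
          positivity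
        linarith) t ht
    rw [← hK₂] at h1
    refine h1.trans ?_
    rw [Finset.Icc_self, Finset.sum_singleton]
    have h2 : 0 ≤ K₂ * (σ * 2 ^ n * dd n 4) := by
      have := dd_nn n 4
      positivity
    linarith
  | succ a ha ih =>
    intro han t ht
    have ih' := ih (by omega)
    obtain ⟨X, hX⟩ : ∃ X, X = σ * 2 ^ n * ∑ l ∈ Finset.Icc 4 a, dd n l := ⟨_, rfl⟩
    have hX0 : 0 ≤ X := by
      rw [hX]
      exact mul_nonneg (by positivity) (Finset.sum_nonneg fun l _ => dd_nn n l)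
    rw [← hX] at ih'
    have h1 := hone T E D G u p h σ hσ0 hσ' n (a + 1) (by omega) han hS t₀ x₀ y ht1 ht2 hg
      (2 * K₂ * X) K₁ (by positivity) hK₁0.le (by
        intro s hs
        have hgl : ∀ l, 0 ≤ gF (u s) (y l) := fun l => gF_nn _ _
        have h2 := ih' s ⟨Wi_mono (by omega) t₀ hs.1, hs.2⟩
        have h3 := hch (u s) (h.spv hs.2) x₀ y a ha (a + 1) (by omega)
          (fun l hl hla => (hg l hl (hla.trans han)).1)
        have e1 : SS (fun l => gF (u s) (y l)) (a + 1) (a + 1)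
            = rr (a + 1) * gF (u s) (y (a + 1)) := by
          unfold SS
          rw [Finset.Icc_self, Finset.sum_singleton]
        rw [e1] at h3
        obtain ⟨P, hP⟩ : ∃ P, P = PP (fun l => gF (u s) (y l)) a := ⟨_, rfl⟩
        obtain ⟨g, hgd⟩ : ∃ g, g = gF (u s) (y (a + 1)) := ⟨_, rfl⟩
        have hP0 : 0 ≤ P := by rw [hP]; exact PP_nn hgl a
        have hg0 : 0 ≤ g := by rw [hgd]; exact hgl _
        have e2 : PP (fun l => gF (u s) (y l)) (a + 1) = P + g := by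
          unfold PP at hP ⊢
          rw [Finset.sum_Icc_succ_top (by omega), hP, hgd]
        rw [← hP] at h2
        rw [← hgd] at h3
        rw [e2]
        have hr := NE.rrp (a + 1)
        have e3 : rr a = 2 * rr (a + 1) := by
          rw [NE.rr_succ]
          ring
        rw [e3] at h2
        have h4 : ‖mo (rr (a + 1)) (u s) x₀‖ ≤ ‖mo (rr a) (u s) x₀‖
            + ‖mo (rr a) (u s) x₀ - mo (rr (a + 1)) (u s) x₀‖ := by
          calc ‖mo (rr (a + 1)) (u s) x₀‖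
              = ‖mo (rr a) (u s) x₀ - (mo (rr a) (u s) x₀ - mo (rr (a + 1)) (u s) x₀)‖ := by
                rw [sub_sub_cancel]
            _ ≤ _ := norm_sub_le _ _
        rw [e3] at h3 h4
        have q1 : 0 ≤ rr (a + 1) * P := by positivity
        have q2 : 0 ≤ rr (a + 1) * g := by positivity
        have h5 : 2 * k * (rr (a + 1) * P) + K * (rr (a + 1) * g)
            ≤ K₁ * (rr (a + 1) * (P + g)) := by
          have e4 : K₁ * (rr (a + 1) * (P + g)) = 2 * k * (rr (a + 1) * P)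
            + K * (rr (a + 1) * g) + (K + 64 * Km) * (rr (a + 1) * P)
            + (2 * k + 64 * Km) * (rr (a + 1) * g) := by
            rw [hK₁]
            ring
          rw [e4]
          have q3 : 0 ≤ (K + 64 * Km) * (rr (a + 1) * P) := by positivity
          have q4 : 0 ≤ (2 * k + 64 * Km) * (rr (a + 1) * g) := by positivity
          linarith
        have h6 : k * (1 + E ^ 2) ≤ K₁ * (1 + E ^ 2) := by
          apply mul_le_mul_of_nonneg_right _ hE0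
          rw [hK₁]
          have : 0 ≤ k + K + 64 * Km := by positivity
          linarith
        have e5 : k * (2 * rr (a + 1) * P + (1 + E ^ 2))
            = 2 * k * (rr (a + 1) * P) + k * (1 + E ^ 2) := by ring
        rw [e5] at h2
        linarith) t ht
    rw [← hK₂] at h1
    refine h1.trans ?_
    rw [Finset.sum_Icc_succ_top (by omega)]
    have hd0 := dd_nn n (a + 1)
    have hXle : X ≤ σ * 2 ^ n * 5 := by
      rw [hX]
      exact mul_le_mul_of_nonneg_left (dd_sum hn4 (by omega)) (by positivity)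
    have e : 2 * K₂ * (σ * 2 ^ n * (∑ l ∈ Finset.Icc 4 a, dd n l + dd n (a + 1)))
        = 2 * K₂ * X + 2 * K₂ * (σ * 2 ^ n * dd n (a + 1)) := by
      rw [hX]
      ring
    rw [e]
    have h2 : 8 * k * (σ * dd n (a + 1)) * (2 * K₂ * X) ≤ K₂ * (σ * 2 ^ n * dd n (a + 1)) := by
      have h3 : 8 * k * (σ * dd n (a + 1)) * (2 * K₂ * X)
          ≤ K₂ * (σ * dd n (a + 1)) * (2 * K₂ * (σ * 2 ^ n * 5)) := by gcongr
      have h4 : K₂ * (σ * dd n (a + 1)) * (2 * K₂ * (σ * 2 ^ n * 5))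
          = (10 * K₂ * σ) * (K₂ * (σ * 2 ^ n * dd n (a + 1))) := by ring
      have h5 : (10 * K₂ * σ) * (K₂ * (σ * 2 ^ n * dd n (a + 1)))
          ≤ 1 * (K₂ * (σ * 2 ^ n * dd n (a + 1))) :=
        mul_le_mul_of_nonneg_right hσ'' (by positivity)
      linarith
    have e2 : (1 + 8 * k * (σ * dd n (a + 1))) * (2 * K₂ * X)
        = 2 * K₂ * X + 8 * k * (σ * dd n (a + 1)) * (2 * K₂ * X) := by ring
    rw [e2]
    linarith

end Pool.Agent.Q193.NE
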