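import Pool.Agent.Q193.NE.Path
import Pool.Agent.Q193.NS.Level

/-!
The alternative: heavy points and slow points (helper193).
-/

set_option autoImplicit false

open MeasureTheory Set Metric Filter Topology
open scoped ContDiff ENNReal

namespace Pool.Agent.Q193.NE

open H459R3.NS W221.NS Pool.Agent.Y7 Pool.Agent.Y8 Pool.Agent.Y458.NS Pool.Agent.TH305.LG
open Pool.Agent.Y8.WS Pool.Agent.Y7.Cov1
open Pool.Agent.Q193.NS (rr_mono rr_le1 abs_le_B rr_add' Bx Bx_meas Ub Ub_meas Mb cyl cyl_eq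
  ball_Bx FtO_cell slow sc_rr)

/-- The points whose windows are bad. -/
def Uw (h₀ η : ℝ) (G : Set ℝ) (u : ℝ → V → V) (k : ℕ) : Set (ℝ × V) :=
  {z | z.1 ∈ bad (fun τ => FtO 1 G u (τ, z.2)) h₀ η k}

/-- The mass of the bad windows. -/
noncomputable def Mw (h₀ η : ℝ) (G : Set ℝ) (u : ℝ → V → V) (k : ℕ) : Measure (ℝ × V) :=
  (ENNReal.ofReal (1 / hh h₀ k ^ 2)) •
    (volume.restrict (univ ×ˢ Bx)).restrict (Uw h₀ η G u k)

lemma Uw_meas {T E D : ℝ} {G : Set ℝ} {u : ℝ → V → V} {p : ℝ → V → ℝ} (h : Turb 1 T E D G u p)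
    (h₀ η : ℝ) (k : ℕ) : MeasurableSet (Uw h₀ η G u k) :=
  bad_meas (FtO_meas 1 h.openG h.smooth_u) _ _ _

lemma Mw_sum : ∃ A : ℝ, 0 < A ∧ ∀ (h₀ η : ℝ), 0 < h₀ → 0 < η →
    ∀ (T E D : ℝ) (G : Set ℝ) (u : ℝ → V → V) (p : ℝ → V → ℝ), Turb 1 T E D G u p →
      ∑' k, Mw h₀ η G u k univ ≤ ENNReal.ofReal (16 / 3 / η * A * D) := by
  obtain ⟨A, hA, hF⟩ := FtO_cell
  refine ⟨A, hA, fun h₀ η hh₀ hη T E D G u p h => ?_⟩
  have hfm : Measurable (FtO 1 G u) := FtO_meas 1 h.openG h.smooth_u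
  have e1 : ∀ k, Mw h₀ η G u k univ = ∫⁻ y in Bx, ∫⁻ t, ENNReal.ofReal (1 / hh h₀ k ^ 2)
      * (bad (fun τ => FtO 1 G u (τ, y)) h₀ η k).indicator (fun _ => 1) t := by
    intro k
    unfold Mw
    rw [Measure.smul_apply, Measure.restrict_apply MeasurableSet.univ, univ_inter, smul_eq_mul]
    have e : (volume : Measure (ℝ × V)).restrict (univ ×ˢ Bx)
        = (volume : Measure ℝ).prod ((volume : Measure V).restrict Bx) := by
      rw [Measure.volume_eq_prod, ← Measure.prod_restrict, Measure.restrict_univ]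
    rw [e, Measure.prod_apply_symm (Uw_meas h h₀ η k),
      ← lintegral_const_mul' _ _ ENNReal.ofReal_ne_top]
    refine lintegral_congr fun y => ?_
    have hm : MeasurableSet (bad (fun τ => FtO 1 G u (τ, y)) h₀ η k) := by
      have h1 : Measurable (fun t : ℝ => (t, y)) := measurable_id.prodMk measurable_const
      exact h1 (bad_meas hfm h₀ η k)
    rw [lintegral_const_mul' _ _ ENNReal.ofReal_ne_top, lintegral_indicator hm, lintegral_const,
      Measure.restrict_apply_univ, one_mul]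
    rfl
  have hmk : ∀ k, Measurable fun z : ℝ × V => ENNReal.ofReal (1 / hh h₀ k ^ 2)
      * (bad (fun τ => FtO 1 G u (τ, z.2)) h₀ η k).indicator (fun _ => (1 : ℝ≥0∞)) z.1 := by
    intro k
    refine Measurable.const_mul ?_ _
    have e : (fun z : ℝ × V => (bad (fun τ => FtO 1 G u (τ, z.2)) h₀ η k).indicator
        (fun _ => (1 : ℝ≥0∞)) z.1)
        = {z : ℝ × V | z.1 ∈ bad (fun τ => FtO 1 G u (τ, z.2)) h₀ η k}.indicator
          (fun _ => 1) := by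
      funext z
      by_cases hz : z.1 ∈ bad (fun τ => FtO 1 G u (τ, z.2)) h₀ η k
      · rw [indicator_of_mem hz, indicator_of_mem (show z ∈ {z : ℝ × V |
          z.1 ∈ bad (fun τ => FtO 1 G u (τ, z.2)) h₀ η k} from hz)]
      · rw [indicator_of_notMem hz, indicator_of_notMem (show z ∉ {z : ℝ × V |
          z.1 ∈ bad (fun τ => FtO 1 G u (τ, z.2)) h₀ η k} from hz)]
    rw [e]
    exact measurable_const.indicator (bad_meas hfm h₀ η k)
  have hsl : ∀ k (y : V), AEMeasurable (fun t => ENNReal.ofReal (1 / hh h₀ k ^ 2)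
      * (bad (fun τ => FtO 1 G u (τ, y)) h₀ η k).indicator (fun _ => (1 : ℝ≥0∞)) t) := by
    intro k y
    exact ((hmk k).comp (measurable_id.prodMk measurable_const :
      Measurable fun t : ℝ => (t, y))).aemeasurable
  have hsw : ∀ k, AEMeasurable (fun y : V => ∫⁻ t, ENNReal.ofReal (1 / hh h₀ k ^ 2)
      * (bad (fun τ => FtO 1 G u (τ, y)) h₀ η k).indicator (fun _ => (1 : ℝ≥0∞)) t)
      (volume.restrict Bx) := by
    intro k
    exact (Measurable.lintegral_prod_left' (hmk k)).aemeasurable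
  calc ∑' k, Mw h₀ η G u k univ
      = ∫⁻ y in Bx, ∫⁻ t, Hs (FtO 1 G u) h₀ η (t, y) := by
        rw [tsum_congr e1, ← lintegral_tsum hsw]
        refine lintegral_congr fun y => ?_
        unfold Hs
        rw [lintegral_tsum fun k => hsl k y]
    _ ≤ ∫⁻ y in Bx, ENNReal.ofReal (16 / 3 / η) * ∫⁻ τ, FtO 1 G u (τ, y) :=
        lintegral_mono fun y => Hs_int hfm hh₀ hη y
    _ = ENNReal.ofReal (16 / 3 / η) * ∫⁻ y in Bx, ∫⁻ τ, FtO 1 G u (τ, y) :=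
        lintegral_const_mul' _ _ ENNReal.ofReal_ne_top
    _ = ENNReal.ofReal (16 / 3 / η) * ∫⁻ τ, ∫⁻ y in Bx, FtO 1 G u (τ, y) := by
        rw [lintegral_lintegral_swap (f := fun τ a => FtO 1 G u (τ, a)) hfm.aemeasurable]
    _ ≤ ENNReal.ofReal (16 / 3 / η) * ENNReal.ofReal (A * D) :=
        mul_le_mul_right (hF T E D G u p h) _
    _ = ENNReal.ofReal (16 / 3 / η * A * D) := by
        rw [← ENNReal.ofReal_mul (by positivity)]
        congr 1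
        ring

/-! ### Heavy points -/

/-- The point is heavy at the scale `k`, relative to the level `n = k + j`. -/
def Hv (η : ℝ) (G : Set ℝ) (u : ℝ → V → V) (j k : ℕ) (z : ℝ × V) : Prop :=
  Ioo (z.1 + 1024 * (rr k * rr (k + j))) (z.1 + 2 * (1024 * (rr k * rr (k + j)))) ×ˢ
    ball z.2 (rr k) ⊆ Uw (4096 * (1 / 2) ^ j) (η * (9 / 16) ^ j) G u k

lemma hh_w (j k : ℕ) : hh (4096 * (1 / 2) ^ j) k = 4 * (1024 * (rr k * rr (k + j))) := by
  unfold hh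
  rw [rr_add' k j]
  unfold rr
  have : (4 : ℝ) ^ k = 2 ^ k * 2 ^ k := by
    rw [← mul_pow]
    norm_num
  rw [this, one_div_pow, one_div_pow]
  field_simp
  norm_num

lemma heavy_mass {T E D : ℝ} {G : Set ℝ} {u : ℝ → V → V} {p : ℝ → V → ℝ}
    (h : Turb 1 T E D G u p) {η : ℝ} {j k : ℕ} {z : ℝ × V} (hz : z.2 ∈ cube)
    (hv : Hv η G u j k z) : ENNReal.ofReal (rr k * 2 ^ j / 2048)
      ≤ Mw (4096 * (1 / 2) ^ j) (η * (9 / 16) ^ j) G u k
        (Ioo (z.1 + 1024 * (rr k * rr (k + j))) (z.1 + 2 * (1024 * (rr k * rr (k + j)))) ×ˢ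
          ball z.2 (rr k)) := by
  have hrk := NE.rrp k
  have hrn := NE.rrp (k + j)
  have hUm := Uw_meas h (4096 * (1 / 2) ^ j) (η * (9 / 16) ^ j) k
  obtain ⟨w, hw⟩ : ∃ w, w = 1024 * (rr k * rr (k + j)) := ⟨_, rfl⟩
  have hw0 : 0 < w := by rw [hw]; positivity
  unfold Hv at hv
  rw [← hw] at hv ⊢
  unfold Mw
  rw [Measure.smul_apply, Measure.restrict_apply' hUm,
    Measure.restrict_apply' (MeasurableSet.univ.prod Bx_meas), smul_eq_mul, inter_assoc,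
    inter_eq_self_of_subset_left (subset_inter hv (prod_mono (subset_univ _)
      (ball_Bx hz (rr_le1 k)))), Measure.volume_eq_prod, Measure.prod_prod, Real.volume_Ioo,
    Real.volume_pi_ball _ hrk, Fintype.card_fin, ← ENNReal.ofReal_mul (by linarith),
    ← ENNReal.ofReal_mul (by positivity)]
  apply ENNReal.ofReal_le_ofReal
  rw [hh_w, ← hw]
  have e2 : (2 : ℝ) ^ j * rr (k + j) = rr k := by
    rw [rr_add', mul_comm (rr k), ← mul_assoc, NE.two_rr, one_mul]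
  have e : 1 / (4 * w) ^ 2 * ((z.1 + 2 * w - (z.1 + w)) * (2 * rr k) ^ 3)
      = rr k ^ 3 / (2 * w) := by
    have : z.1 + 2 * w - (z.1 + w) = w := by ring
    rw [this]
    field_simp
    norm_num
  rw [e, hw, le_div_iff₀ (by positivity)]
  apply le_of_eq
  calc rr k * 2 ^ j / 2048 * (2 * (1024 * (rr k * rr (k + j))))
      = rr k ^ 2 * (2 ^ j * rr (k + j)) := by ring
    _ = rr k ^ 3 := by rw [e2]; ring

/-- The bound which excludes heavy points at a fixed scale. -/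
lemma heavy_fix {T E D : ℝ} {G : Set ℝ} {u : ℝ → V → V} {p : ℝ → V → ℝ}
    (h : Turb 1 T E D G u p) {A : ℝ} (hA : 0 < A) {η : ℝ} (hη : 0 < η)
    (hMw : ∀ (h₀ η : ℝ), 0 < h₀ → 0 < η →
    ∀ (T E D : ℝ) (G : Set ℝ) (u : ℝ → V → V) (p : ℝ → V → ℝ), Turb 1 T E D G u p →
      ∑' k, Mw h₀ η G u k univ ≤ ENNReal.ofReal (16 / 3 / η * A * D)) (hD : 0 ≤ D)
    {j k : ℕ} {z : ℝ × V} (hz : z.2 ∈ cube)
    (hv : Hv η G u j k z) : (9 / 8) ^ j ≤ 2048 * (16 / 3 / η * A * D) * 2 ^ k := by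
  have h1 := heavy_mass h hz hv
  have h2 : Mw (4096 * (1 / 2) ^ j) (η * (9 / 16) ^ j) G u k univ
      ≤ ENNReal.ofReal (16 / 3 / (η * (9 / 16) ^ j) * A * D) :=
    (ENNReal.le_tsum k).trans (hMw _ _ (by positivity) (by positivity) T E D G u p h)
  have h3 := h1.trans ((measure_mono (subset_univ _)).trans h2)
  rw [ENNReal.ofReal_le_ofReal_iff (by positivity)] at h3
  have p9 : (0 : ℝ) < (9 / 16) ^ j := by positivity
  have e : 16 / 3 / (η * (9 / 16) ^ j) * A * D = (16 / 3 / η * A * D) / (9 / 16) ^ j := by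
    field_simp
  rw [e, le_div_iff₀ p9] at h3
  have e2 : rr k * 2 ^ j / 2048 * (9 / 16) ^ j = rr k * (9 / 8) ^ j / 2048 := by
    have : (2 : ℝ) ^ j * (9 / 16) ^ j = (9 / 8) ^ j := by
      rw [← mul_pow]
      norm_num
    rw [← this]
    ring
  rw [e2] at h3
  have h4 := mul_le_mul_of_nonneg_right h3 (by positivity : (0 : ℝ) ≤ 2048 * 2 ^ k)
  have e3 : rr k * (9 / 8) ^ j / 2048 * (2048 * 2 ^ k) = (2 ^ k * rr k) * (9 / 8) ^ j := by ring
  rw [e3, NE.two_rr, one_mul] at h4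
  linarith

/-- A point which is not heavy. -/
lemma not_heavy {η : ℝ} {G : Set ℝ} {u : ℝ → V → V} {j k : ℕ} {z : ℝ × V}
    (hv : ¬ Hv η G u j k z) : ∃ y : V, ‖z.2 - y‖ ≤ rr k ∧
      ∫⁻ τ in Wi (k + j) k z.1, FtO 1 G u (τ, y)
        ≤ ENNReal.ofReal (η * (9 / 16) ^ j / (4096 * (rr k * rr (k + j)))) := by
  unfold Hv at hv
  rw [not_subset] at hv
  obtain ⟨⟨s, y⟩, ⟨hs, hy⟩, hn⟩ := hv
  have hs1 : z.1 + 1024 * (rr k * rr (k + j)) < s := hs.1
  have hs2 : s < z.1 + 2 * (1024 * (rr k * rr (k + j))) := hs.2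
  have hy' : ‖y - z.2‖ < rr k := by
    have : y ∈ ball z.2 (rr k) := hy
    rwa [mem_ball, dist_eq_norm] at this
  refine ⟨y, ?_, ?_⟩
  · rw [norm_sub_rev]
    exact hy'.le
  · have h1 : ∫⁻ τ in Ioo (s - hh (4096 * (1 / 2) ^ j) k) s, FtO 1 G u (τ, y)
        ≤ ENNReal.ofReal (η * (9 / 16) ^ j / hh (4096 * (1 / 2) ^ j) k) := not_lt.1 hn
    rw [hh_w] at h1
    have e : 4 * (1024 * (rr k * rr (k + j))) = 4096 * (rr k * rr (k + j)) := by ring
    rw [e] at h1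
    refine le_trans (lintegral_mono_set ?_) h1
    unfold Wi
    exact Ioo_subset_Ioo (by linarith) hs1.le

/-- The alternative. -/
theorem dich : ∃ η ηs S : ℝ, 0 < η ∧ 0 < ηs ∧ 1 ≤ S ∧ ∀ (T E D : ℝ)
    (G : Set ℝ) (u : ℝ → V → V) (p : ℝ → V → ℝ), Turb 1 T E D G u p → ∀ m : ℕ,
      S * (m + 9 : ℕ) * (1 + E ^ 2) ^ 2 ≤ √(2 ^ (m + 9)) → ∀ (t₀ : ℝ) (x₀ : V), x₀ ∈ cube →
        0 < t₀ - 1024 * (rr 4 * rr (m + 9)) → t₀ + 1024 * (rr 4 * rr (m + 9)) < T →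
          SingPt G u t₀ x₀ → (∀ j k, 4 ≤ k → k + j = m + 9 → ¬ Hv η G u j k (t₀, x₀)) →
            ENNReal.ofReal (rr (m + 4) / 4096) ≤ Mb ηs G u m (cyl (m + 4) (t₀, x₀)) := by
  obtain ⟨S, σ₁, hS1, hσ₁, hpath⟩ := pathb
  obtain ⟨ηs, hηs, hslow⟩ := slow
  obtain ⟨Kp, hKp, hwp⟩ := Pool.Agent.Y8.B.p_wpath
  obtain ⟨σ, hσ⟩ : ∃ σ, σ = min σ₁ 1 := ⟨_, rfl⟩
  have hσ0 : 0 < σ := by rw [hσ]; positivity
  have hσ1 : σ ≤ 1 := by rw [hσ]; exact min_le_right _ _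
  have hσσ : σ ≤ σ₁ := by rw [hσ]; exact min_le_left _ _
  refine ⟨σ ^ 2, ηs, S / σ, by positivity, hηs, ?_, ?_⟩
  · rw [le_div_iff₀ hσ0]
    linarith
  intro T E D G u p h m hm t₀ x₀ hx₀ ht1 ht2 hsing hnh
  obtain ⟨n, hn⟩ : ∃ n, n = m + 9 := ⟨_, rfl⟩
  rw [← hn] at hm ht1 ht2 hnh
  have hy : ∀ l, ∃ y : V, 4 ≤ l → l ≤ n → ‖x₀ - y‖ ≤ rr l ∧
      ∫⁻ τ in Wi n l t₀, FtO 1 G u (τ, y)
        ≤ ENNReal.ofReal (σ ^ 2 * (9 / 16) ^ (n - l) / (4096 * (rr l * rr n))) := by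
    intro l
    by_cases hl : 4 ≤ l ∧ l ≤ n
    · have hln : l + (n - l) = n := by omega
      obtain ⟨y, hy1, hy2⟩ := not_heavy (hnh (n - l) l hl.1 hln)
      rw [hln] at hy2
      exact ⟨y, fun _ _ => ⟨hy1, hy2⟩⟩
    · exact ⟨0, fun h1 h2 => absurd ⟨h1, h2⟩ hl⟩
  choose y hy using hy
  have hg : Gd σ G u n t₀ x₀ y := fun l h1 h2 => hy l h1 h2
  have hS : S * n * (1 + E ^ 2) ^ 2 ≤ σ * √(2 ^ n) := by
    have h1 := mul_le_mul_of_nonneg_left hm hσ0.le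
    have e : σ * (S / σ * n * (1 + E ^ 2) ^ 2) = S * n * (1 + E ^ 2) ^ 2 := by
      field_simp
    rw [e] at h1
    exact h1
  have hrn := NE.rrp n
  have e5 : rr (m + 4) = 32 * rr n := by
    rw [hn, show m + 9 = (m + 4) + 5 by ring, rr_add' (m + 4) 5]
    unfold rr
    norm_num
    ring
  have e52 : rr (m + 4) ^ 2 = 1024 * (rr n * rr n) := by
    rw [e5]
    ring
  have hr4 : rr n ≤ rr 4 := rr_mono (by omega)
  have hlt : 1024 * (rr n * rr n) ≤ 1024 * (rr 4 * rr n) := by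
    have := mul_le_mul_of_nonneg_right hr4 hrn.le
    linarith
  have hp4 : 0 < rr n * rr n := by positivity
  have ht0 : t₀ ∈ Ioo 0 T := ⟨by linarith, by linarith⟩
  obtain ⟨Cx, hCx, hpx⟩ := hwp E (rr (m + 4)) (NE.rrp _) (rr_le1 _)
  obtain ⟨X, X', hX0, hX⟩ := hpx T D G u p h t₀ ht0 x₀
  obtain ⟨Cy, hCy, hpy⟩ := hwp E (rr (m + 8)) (NE.rrp _) (rr_le1 _)
  obtain ⟨Y, Y', hY0, hY⟩ := hpy T D G u p h t₀ ht0 x₀
  have hXs : ∀ t, |t - t₀| < rr (m + 4) ^ 2 → ‖X t - x₀‖ ≤ rr (m + 9) := by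
    intro t ht
    rw [e52] at ht
    rw [← hn]
    exact hpath T E D G u p h σ hσ0 hσσ n (by omega) hS t₀ x₀ y ht1 ht2 hg (m + 4) (by omega)
      (by omega) (by omega) X X' _ _ hX hX0 t ht
  have hYs : ∀ t, |t - t₀| < rr (m + 4) ^ 2 → ‖Y t - x₀‖ ≤ rr (m + 9) := by
    intro t ht
    rw [e52] at ht
    rw [← hn]
    exact hpath T E D G u p h σ hσ0 hσσ n (by omega) hS t₀ x₀ y ht1 ht2 hg (m + 8) (by omega)
      (by omega) (by omega) Y Y' _ _ hY hY0 t ht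
  have hs := hslow T E D G u p h m t₀ x₀ (by rw [e52]; linarith) (by rw [e52]; linarith) hsing
    X X' Y Y' _ _ _ _ hX hY hY0 hXs hYs
  have hr := NE.rrp (m + 4)
  have e8 : rr (m + 8) = rr (m + 4) / 16 := by
    rw [show m + 8 = (m + 4) + 4 by ring, rr_add' (m + 4) 4]
    unfold rr
    ring
  have hUm := Ub_meas h ηs m
  unfold Mb
  rw [Measure.smul_apply, Measure.restrict_apply' hUm,
    Measure.restrict_apply' (MeasurableSet.univ.prod Bx_meas), smul_eq_mul]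
  have hsub : Ioo t₀ (t₀ + rr (m + 8) ^ 2 / 16) ×ˢ ball x₀ (rr (m + 4) / 2)
      ⊆ cyl (m + 4) (t₀, x₀) ∩ Ub ηs G u m ∩ univ ×ˢ Bx := by
    intro w hw
    refine ⟨⟨?_, hs hw⟩, mem_univ _, ?_⟩
    · rw [cyl_eq]
      obtain ⟨h1, h2⟩ := hw
      refine ⟨⟨?_, ?_⟩, ball_subset_ball (by linarith) h2⟩
      · have := h1.1
        simp only
        linarith [sq_nonneg (rr (m + 4))]
      · have := h1.2
        rw [e8] at this
        simp only
        nlinarith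
    · have h2 : w.2 ∈ ball x₀ (rr (m + 4) / 2) := hw.2
      have h3 := rr_le1 (m + 4)
      exact ball_Bx hx₀ (by linarith) h2
  have hvol : volume (Ioo t₀ (t₀ + rr (m + 8) ^ 2 / 16) ×ˢ ball x₀ (rr (m + 4) / 2))
      = ENNReal.ofReal (rr (m + 4) ^ 5 / 4096) := by
    rw [Measure.volume_eq_prod, Measure.prod_prod, Real.volume_Ioo,
      Real.volume_pi_ball _ (by positivity), Fintype.card_fin, ← ENNReal.ofReal_mul]
    · congr 1
      rw [e8]
      ring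
    · have := sq_nonneg (rr (m + 8))
      linarith
  refine le_trans ?_ (mul_le_mul_right (measure_mono hsub) _)
  rw [hvol, ← ENNReal.ofReal_mul (by positivity)]
  apply ENNReal.ofReal_le_ofReal
  have e9 : hh (sc 1 0 ^ 2) m = rr (m + 4) ^ 2 := by rw [← sc_hh, sc_rr]
  rw [e9]
  apply le_of_eq
  field_simp

end Pool.Agent.Q193.NE
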