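import Pool.Agent.Q193.NE.Mc
import Pool.Agent.Y8.WCore

/-!
Estimates at a fixed time by the maximal function at one point (helper193).
-/

set_option autoImplicit false

open MeasureTheory Set Metric
open scoped ContDiff ENNReal

namespace Pool.Agent.Q193.NE

open H459R3.NS W221.NS Pool.Agent.Y7 Pool.Agent.Y8 Pool.Agent.TH305.LG Pool.Agent.Q193.NS

/-- The maximal function at a point, as a real number, power one half. -/
noncomputable def gF (v : V → V) (y : V) : ℝ := √((Fx 1 v y).toReal)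

lemma gF_nn (v : V → V) (y : V) : 0 ≤ gF v y := Real.sqrt_nonneg _

lemma Fx_fin {v : V → V} (hv : SPV v) (y : V) : Fx 1 v y ≠ ⊤ := by
  obtain ⟨M, hM⟩ := per_bdd (T := 2) (u := fun _ => v) (a := 1) (b := 1)
    ((hv.1.comp contDiff_snd).contDiffOn) (fun t ht => hv.2) (by norm_num) (by norm_num)
  unfold Fx
  refine ENNReal.rpow_ne_top_of_nonneg (by norm_num) ?_
  have h1 := Hl.Mx_le (R₀ := 1) one_pos (g := Sp.gw v) (B := ENNReal.ofReal (9 * M ^ 2) ^ (6 / 7 : ℝ))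
    (fun x => gw_bd (fun x => (hM 1 ⟨le_rfl, le_rfl⟩ x).2) x) y
  refine ne_top_of_le_ne_top ?_ h1
  exact ENNReal.mul_ne_top (by norm_num)
    (ENNReal.rpow_ne_top_of_nonneg (by norm_num) ENNReal.ofReal_ne_top)

lemma Fx_gF {v : V → V} (hv : SPV v) (y : V) : Fx 1 v y = ENNReal.ofReal (gF v y ^ 2) := by
  unfold gF
  rw [Real.sq_sqrt ENNReal.toReal_nonneg, ENNReal.ofReal_toReal (Fx_fin hv y)]

lemma rr_sc {i : ℕ} (hi : 4 ≤ i) : rr i = sc 1 (i - 4) := by
  rw [sc_rr, Nat.sub_add_cancel hi]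

/-- The mean velocity and the velocity at a point. -/
theorem mo_pt : ∃ K : ℝ, 0 < K ∧ ∀ v : V → V, SPV v → ∀ i : ℕ, 4 ≤ i → ∀ x y : V,
    ‖x - y‖ ≤ rr i → ‖mo (rr i) v x - v y‖ ≤ K * (rr i * gF v y) := by
  obtain ⟨K, hK, h⟩ := mlb
  refine ⟨K, hK, fun v hv i hi x y hxy => ?_⟩
  rw [rr_sc hi] at hxy ⊢
  have h1 := h 1 one_pos v hv.1 (i - 4) y x hxy
  have hg := gF_nn v y
  have hs := sc_pos (R₀ := 1) one_pos (i - 4)
  rw [Fx_gF hv y, ENNReal.ofReal_rpow_of_nonneg (by positivity) (by norm_num),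
    ← ENNReal.ofReal_mul (by positivity), ENNReal.ofReal_le_ofReal_iff (by positivity),
    ← Real.sqrt_eq_rpow, Real.sqrt_sq hg] at h1
  have e : ml (sc 1 (i - 4)) v x = mo (sc 1 (i - 4)) v x := rfl
  rw [e] at h1
  linarith

/-- The oscillation at the scale of the ball. -/
theorem A2_pt : ∃ K : ℝ, 0 < K ∧ ∀ v : V → V, SPV v → ∀ i : ℕ, 4 ≤ i → ∀ x y : V,
    ‖x - y‖ ≤ rr i →
      A2 x (rr i) (fun z => v z - mo (rr i) v x) ≤ K * (rr i ^ 5 * gF v y ^ 2) := by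
  obtain ⟨K, hK, h⟩ := osc
  obtain ⟨k, hk⟩ : ∃ k, k = K.toReal := ⟨_, rfl⟩
  have hk0 : 0 ≤ k := by rw [hk]; exact ENNReal.toReal_nonneg
  have hKk : K = ENNReal.ofReal k := by rw [hk, ENNReal.ofReal_toReal hK]
  refine ⟨32 * k + 1, by positivity, fun v hv i hi x y hxy => ?_⟩
  obtain ⟨r, hr⟩ : ∃ r, r = rr i := ⟨_, rfl⟩
  have hr0 : 0 < r := by rw [hr]; exact Pool.Agent.Y458.NS.rrp i
  have hrs : sc 1 (i - 4) = r := by rw [hr]; exact (rr_sc hi).symm
  rw [← hr] at hxy ⊢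
  have hg := gF_nn v y
  have h1 := h 1 one_pos v hv.1 (i - 4) y x (by rw [hrs]; exact hxy)
  rw [Fx_gF hv y, hKk, hrs, ← ENNReal.ofReal_mul (by positivity),
    ← ENNReal.ofReal_mul hk0, ENNReal.ofReal_le_ofReal_iff (by positivity)] at h1
  obtain ⟨w, hw⟩ : ∃ w : V → V, w = fun z => v z - mo r v x := ⟨_, rfl⟩
  have hws : ContDiff ℝ ∞ w := by rw [hw]; exact hv.1.sub contDiff_const
  rw [← hw]
  obtain ⟨f, hf⟩ : ∃ f : V → V, f = fr r v x := ⟨_, rfl⟩
  rw [← hf] at h1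
  have hfs : ContDiff ℝ ∞ f := by rw [hf]; exact fr_smooth hv.1 r x
  have hfn := (nsq_sm hfs).continuous
  have hwn := (nsq_sm hws).continuous
  -- Cauchy-Schwarz
  have h2 : A2 0 4 f ≤ 32 * √(L4 0 4 f) := by
    have h3 := W162.MD.cs_ball (f := nsq f) (g := fun _ => (1 : ℝ)) hfn continuous_const 0 4
    have e1 : ∫ x in ball (0 : V) 4, (1 : ℝ) ^ 2 = 512 := by
      simp only [one_pow]
      rw [Pool.Agent.Y153.NS.vol_ball 0 (by norm_num : (0 : ℝ) < 4)]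
      norm_num
    rw [e1] at h3
    simp only [mul_one] at h3
    have h4 : √(512 : ℝ) ≤ 32 := by
      rw [Real.sqrt_le_left (by norm_num)]
      norm_num
    have h5 : √(∫ x in ball (0 : V) 4, nsq f x ^ 2) * √512 ≤ √(L4 0 4 f) * 32 :=
      mul_le_mul_of_nonneg_left h4 (Real.sqrt_nonneg _)
    have h6 : A2 0 4 f ≤ |∫ x in ball (0 : V) 4, nsq f x| := le_abs_self _
    linarith
  -- scaling
  have h3 : A2 0 4 f = r ^ 2 * ((r ^ 3)⁻¹ * A2 x (r * 4) w) := by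
    have h4 := Pool.Agent.W135.MD.int_ball_scale (fun y => nsq w y) x hr0 4
    unfold A2
    rw [← h4, ← integral_const_mul]
    refine integral_congr_ae (Filter.Eventually.of_forall fun z => ?_)
    show nsq f z = r ^ 2 * nsq w (x + r • z)
    rw [hf, hw]
    unfold nsq Pool.Agent.Y7.fr
    rw [Finset.mul_sum]
    refine Finset.sum_congr rfl fun j _ => ?_
    have e : ml r v x j = mo r v x j := rfl
    rw [e]
    simp only [Pi.sub_apply]
    ring
  have h4 : A2 x r w ≤ A2 x (r * 4) w :=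
    Pool.Agent.Y458.NS.A2_mono hws (ball_subset_ball (by linarith))
  have h5 : A2 x (r * 4) w = r * A2 0 4 f := by
    rw [h3]
    field_simp
  have h6 : r * A2 0 4 f ≤ r * (32 * (k * (r ^ 4 * gF v y ^ 2))) :=
    mul_le_mul_of_nonneg_left (h2.trans (mul_le_mul_of_nonneg_left h1 (by norm_num))) hr0.le
  have h7 : 0 ≤ r ^ 5 * gF v y ^ 2 := by positivity
  calc A2 x r w ≤ r * (32 * (k * (r ^ 4 * gF v y ^ 2))) := by linarith
    _ = 32 * k * (r ^ 5 * gF v y ^ 2) := by ring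
    _ ≤ _ := by linarith

end Pool.Agent.Q193.NE
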