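import Pool.Agent.Q193.NE.Cont

/-!
Gauges (helper193).
-/

set_option autoImplicit false

open MeasureTheory Set Metric Filter Topology Asymptotics
open scoped ContDiff ENNReal

namespace Pool.Agent.Q193.NE

open H459R3.NS W221.NS Pool.Agent.Y7 Pool.Agent.Y8 Pool.Agent.Y458.NS Pool.Agent.TH305.LG
open Pool.Agent.Q193.NS (rr_mono rr_le1 CovLe HNull clc D_nonneg sing_shift sub_floor_mem)

lemma rr_lt {a b : ℕ} (h : a < b) : rr b < rr a := by
  unfold rr
  exact pow_lt_pow_right_of_lt_one₀ (by norm_num) (by norm_num) h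

/-- The dyadic form of the condition on the gauge. -/
lemma nsum_of {g : ℝ → ℝ} {ρ : ℝ} (hpos : ∀ r ∈ Ioo 0 ρ, 0 < g r)
    (hanti : AntitoneOn (fun r => g r / r) (Ioo 0 ρ))
    (hni : ¬ IntegrableAtFilter (fun r => (g r)⁻¹) (𝓝[>] 0)) (k : ℕ) (hk : rr k < ρ) :
    ¬ Summable (fun n => rr (n + k) / g (rr (n + k))) := by
  intro hs
  apply hni
  have hrk := NE.rrp k
  refine ⟨Ioc 0 (rr k), Ioc_mem_nhdsGT hrk, ?_⟩
  have hsub : Ioc 0 (rr k) ⊆ Ioo 0 ρ := fun r hr => ⟨hr.1, hr.2.trans_lt hk⟩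
  have hmem : ∀ n, rr (n + k) ∈ Ioo 0 ρ := fun n =>
    ⟨NE.rrp _, (rr_mono (by omega : k ≤ n + k)).trans_lt hk⟩
  refine ⟨?_, ?_⟩
  · have h1 : AEMeasurable (fun r => g r / r) (volume.restrict (Ioo 0 ρ)) :=
      aemeasurable_restrict_of_antitoneOn measurableSet_Ioo hanti
    have h2 : AEMeasurable (fun r => (g r / r)⁻¹ * r⁻¹) (volume.restrict (Ioo 0 ρ)) :=
      h1.inv.mul measurable_id.inv.aemeasurable
    have h3 : AEMeasurable (fun r => (g r)⁻¹) (volume.restrict (Ioo 0 ρ)) := by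
      refine h2.congr ?_
      filter_upwards [ae_restrict_mem measurableSet_Ioo] with r hr
      have hr0 : r ≠ 0 := hr.1.ne'
      field_simp
    exact (h3.mono_measure (Measure.restrict_mono_set _ hsub)).aestronglyMeasurable
  · have hcov : Ioc 0 (rr k) ⊆ ⋃ n : ℕ, Ioc (rr (n + 1 + k)) (rr (n + k)) := by
      intro r hr
      obtain ⟨m, hm⟩ : ∃ m : ℕ, rr m < r := by
        unfold rr
        exact exists_pow_lt_of_lt_one hr.1 (by norm_num)
      classical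
      obtain ⟨hP1, hP2⟩ : rr (Nat.find (⟨m, hm⟩ : ∃ m, rr m < r)) < r ∧
          ∀ i < Nat.find (⟨m, hm⟩ : ∃ m, rr m < r), ¬ rr i < r :=
        ⟨Nat.find_spec (⟨m, hm⟩ : ∃ m, rr m < r), fun i hi => Nat.find_min _ hi⟩
      obtain ⟨N, hN⟩ : ∃ N, N = Nat.find (⟨m, hm⟩ : ∃ m, rr m < r) := ⟨_, rfl⟩
      rw [← hN] at hP1 hP2
      have hNk : k < N := by
        by_contra hc
        push Not at hc
        have := rr_mono hc
        linarith [hr.2]
      refine mem_iUnion.2 ⟨N - 1 - k, ?_, ?_⟩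
      · rw [show N - 1 - k + 1 + k = N by omega]
        exact hP1
      · rw [show N - 1 - k + k = N - 1 by omega]
        exact not_lt.1 (hP2 (N - 1) (by omega))
    have hpc : ∀ n : ℕ, ∫⁻ r in Ioc (rr (n + 1 + k)) (rr (n + k)), ‖(g r)⁻¹‖ₑ
        ≤ ENNReal.ofReal (rr (n + k) / g (rr (n + k))) := by
      intro n
      have hm := hmem n
      have hg0 := hpos _ hm
      have hr1 := NE.rrp (n + 1 + k)
      have e2 : rr (n + k) = 2 * rr (n + 1 + k) := by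
        rw [show n + 1 + k = (n + k) + 1 by ring, NE.rr_succ]
        ring
      obtain ⟨γ, hγ⟩ : ∃ γ, γ = g (rr (n + k)) / rr (n + k) := ⟨_, rfl⟩
      have hγ0 : 0 < γ := by rw [hγ]; exact div_pos hg0 hm.1
      have hb : ∀ r ∈ Ioc (rr (n + 1 + k)) (rr (n + k)),
          ‖(g r)⁻¹‖ₑ ≤ ENNReal.ofReal (1 / (γ * rr (n + 1 + k))) := by
        intro r hr
        have hr0 : 0 < r := hr1.trans hr.1
        have hrm : r ∈ Ioo 0 ρ := ⟨hr0, hr.2.trans_lt hm.2⟩
        have h1 : γ ≤ g r / r := by rw [hγ]; exact hanti hrm hm hr.2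
        have h2 : γ * rr (n + 1 + k) ≤ g r := by
          rw [le_div_iff₀ hr0] at h1
          have := mul_le_mul_of_nonneg_left hr.1.le hγ0.le
          linarith
        have h3 := hpos r hrm
        rw [Real.enorm_eq_ofReal (inv_nonneg.2 h3.le)]
        apply ENNReal.ofReal_le_ofReal
        rw [inv_eq_one_div]
        exact one_div_le_one_div_of_le (by positivity) h2
      calc ∫⁻ r in Ioc (rr (n + 1 + k)) (rr (n + k)), ‖(g r)⁻¹‖ₑ
          ≤ ∫⁻ _r in Ioc (rr (n + 1 + k)) (rr (n + k)),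
              ENNReal.ofReal (1 / (γ * rr (n + 1 + k))) :=
            setLIntegral_mono' measurableSet_Ioc hb
        _ = ENNReal.ofReal (1 / (γ * rr (n + 1 + k))) * ENNReal.ofReal (rr (n + 1 + k)) := by
            rw [setLIntegral_const, Real.volume_Ioc]
            congr 2
            rw [e2]
            ring
        _ = ENNReal.ofReal (rr (n + k) / g (rr (n + k))) := by
            rw [← ENNReal.ofReal_mul (by positivity)]
            congr 1
            rw [hγ]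
            have := hm.1
            field_simp
        _ ≤ _ := le_rfl
    have hfin : ∑' n, ENNReal.ofReal (rr (n + k) / g (rr (n + k))) ≠ ⊤ := hs.tsum_ofReal_ne_top
    refine lt_of_le_of_lt ((lintegral_mono_set hcov).trans (lintegral_iUnion_le _ _)) ?_
    exact lt_of_le_of_lt (ENNReal.tsum_le_tsum hpc) (lt_top_iff_ne_top.2 hfin)

/-- The singular points in the cube and a compact time interval. -/
lemma null1 {T E D : ℝ} {G : Set ℝ} {u : ℝ → V → V} {p : ℝ → V → ℝ} (h : Turb 1 T E D G u p)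
    {g : ℝ → ℝ} {ρ : ℝ} (hρ : 0 < ρ) (hpos : ∀ r ∈ Ioo 0 ρ, 0 < g r)
    (hanti : AntitoneOn (fun r => g r / r) (Ioo 0 ρ))
    (hni : ¬ IntegrableAtFilter (fun r => (g r)⁻¹) (𝓝[>] 0)) {α β : ℝ} (hα : 0 < α)
    (hβ : β < T) : HNull g {z | z.1 ∈ Icc α β ∧ z.2 ∈ cube ∧ SingPt G u z.1 z.2} := by
  intro δ hδ ε hε
  obtain ⟨C, hC, hcont⟩ := contents
  obtain ⟨k₀, hk₀⟩ : ∃ k₀ : ℕ, rr k₀ < min ρ δ := by
    unfold rr
    exact exists_pow_lt_of_lt_one (lt_min hρ hδ) (by norm_num)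
  obtain ⟨hkρ, hkδ⟩ := lt_min_iff.1 hk₀
  obtain ⟨n₀, hn₀⟩ := hcont T E D (rr k₀) α β (NE.rrp k₀) hα hβ
  obtain ⟨H, hH, hcov⟩ := hn₀ G u p h
  obtain ⟨a, ha⟩ : ∃ a, a = k₀ + n₀ := ⟨_, rfl⟩
  have hrρ : rr a < ρ := (rr_mono (by omega)).trans_lt hkρ
  have hns := nsum_of hpos hanti hni a hrρ
  have hmem : ∀ n, rr (n + a) ∈ Ioo 0 ρ := fun n =>
    ⟨NE.rrp _, (rr_mono (by omega : a ≤ n + a)).trans_lt hrρ⟩
  have hkey : ∀ n, CovLe g δ {z | z.1 ∈ Icc α β ∧ z.2 ∈ cube ∧ SingPt G u z.1 z.2}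
      (ENNReal.ofReal (g (rr (n + a)) / rr (n + a)) * H (n + k₀)) := by
    intro n
    obtain ⟨ι, hι, c, r, h1, h2, h3⟩ := hcov (n + k₀)
    rw [show n + k₀ + n₀ = n + a by omega] at h1
    refine ⟨ι, hι, c, r, fun i => ⟨(NE.rrp _).trans_le (h1 i).1, (h1 i).2.trans hkδ.le⟩, h2, ?_⟩
    have h4 : ∀ i, ENNReal.ofReal (g (r i))
        ≤ ENNReal.ofReal (g (rr (n + a)) / rr (n + a)) * ENNReal.ofReal (r i) := by
      intro i
      have hm := hmem n
      have hri : 0 < r i := hm.1.trans_le (h1 i).1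
      have hrm : r i ∈ Ioo 0 ρ := ⟨hri, (h1 i).2.trans_lt hkρ⟩
      have h5 : g (r i) / r i ≤ g (rr (n + a)) / rr (n + a) := hanti hm hrm (h1 i).1
      rw [div_le_iff₀ hri] at h5
      rw [← ENNReal.ofReal_mul (div_nonneg (hpos _ hm).le hm.1.le)]
      exact ENNReal.ofReal_le_ofReal h5
    refine (ENNReal.tsum_le_tsum h4).trans ?_
    rw [ENNReal.tsum_mul_left]
    exact mul_le_mul_right h3 _
  by_contra hcon
  apply hns
  have hlow : ∀ n, ENNReal.ofReal (ε * (rr (n + a) / g (rr (n + a)))) ≤ H (n + k₀) := by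
    intro n
    by_contra hc
    have hc' := (not_le.1 hc).le
    apply hcon
    refine (hkey n).mono subset_rfl ?_
    refine (mul_le_mul_right hc' _).trans ?_
    have hm := hmem n
    have hg0 := hpos _ hm
    rw [← ENNReal.ofReal_mul (div_nonneg hg0.le hm.1.le)]
    apply ENNReal.ofReal_le_ofReal
    apply le_of_eq
    have := hm.1
    field_simp
  have hsum : ∑' n, ENNReal.ofReal (ε * (rr (n + a) / g (rr (n + a)))) ≠ ⊤ := by
    refine ne_top_of_le_ne_top (ENNReal.ofReal_ne_top (r := C * D)) ?_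
    refine (ENNReal.tsum_le_tsum hlow).trans (le_trans ?_ hH)
    exact ENNReal.tsum_comp_le_tsum_of_injective (add_left_injective k₀) H
  have h5 := ENNReal.summable_toReal hsum
  have h6 : (fun n => (ENNReal.ofReal (ε * (rr (n + a) / g (rr (n + a))))).toReal)
      = fun n => ε * (rr (n + a) / g (rr (n + a))) := by
    funext n
    have hm := hmem n
    rw [ENNReal.toReal_ofReal (mul_nonneg hε.le (div_nonneg hm.1.le (hpos _ hm).le))]
  rw [h6] at h5
  exact (summable_mul_left_iff hε.ne').1 h5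

lemma null2 {T E D : ℝ} {G : Set ℝ} {u : ℝ → V → V} {p : ℝ → V → ℝ} (h : Turb 1 T E D G u p)
    {g : ℝ → ℝ} {ρ : ℝ} (hρ : 0 < ρ) (hpos : ∀ r ∈ Ioo 0 ρ, 0 < g r)
    (hanti : AntitoneOn (fun r => g r / r) (Ioo 0 ρ))
    (hni : ¬ IntegrableAtFilter (fun r => (g r)⁻¹) (𝓝[>] 0)) :
    HNull g {z | z.1 ∈ Ioo 0 T ∧ SingPt G u z.1 z.2} := by
  have H : ∀ q : ℕ × K3, HNull g {z | (z.1, z.2 - iv q.2) ∈ {z : ℝ × V |
      z.1 ∈ Icc (1 / ((q.1 : ℝ) + 1)) (T - 1 / ((q.1 : ℝ) + 1)) ∧ z.2 ∈ cube ∧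
        SingPt G u z.1 z.2}} := by
    intro q
    apply HNull.translate
    have : 0 < 1 / ((q.1 : ℝ) + 1) := by positivity
    exact null1 h hρ hpos hanti hni this (by linarith)
  refine (HNull.iUnion H).mono ?_
  rintro z ⟨hz, hs⟩
  obtain ⟨m, hm⟩ := exists_nat_one_div_lt (lt_min hz.1 (sub_pos.2 hz.2))
  obtain ⟨hm1, hm2⟩ := lt_min_iff.1 hm
  refine mem_iUnion.2 ⟨(m, fun i => ⌊z.2 i⌋), ⟨hm1.le, ?_⟩, sub_floor_mem _, sing_shift h _ hs⟩
  show z.1 ≤ T - 1 / ((m : ℝ) + 1)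
  linarith

/-- All viscosities. -/
theorem null3 {ν T E D : ℝ} {G : Set ℝ} {u : ℝ → V → V} {p : ℝ → V → ℝ} (hν : 0 < ν)
    (h : Turb ν T E D G u p) {g : ℝ → ℝ} {ρ : ℝ} (hρ : 0 < ρ) (hpos : ∀ r ∈ Ioo 0 ρ, 0 < g r)
    (hanti : AntitoneOn (fun r => g r / r) (Ioo 0 ρ))
    (hni : ¬ IntegrableAtFilter (fun r => (g r)⁻¹) (𝓝[>] 0)) :
    HNull g {z | z.1 ∈ Ioo 0 T ∧ SingPt G u z.1 z.2} := by
  obtain ⟨h1, h2⟩ := Pool.Agent.Y8.B.p_wscal ν T E D G u p hν h
  refine ((null2 h1 hρ hpos hanti hni).scale hν).mono ?_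
  rintro z ⟨hz, hs⟩
  refine ⟨⟨mul_pos hν hz.1, ?_⟩, h2 _ _ hs⟩
  exact mul_lt_mul_of_pos_left hz.2 hν

/-! ### The gauge `r log (1/r) log log (1/r)` -/

/-- The gauge. -/
noncomputable def glog (r : ℝ) : ℝ := r * Real.log r⁻¹ * Real.log (Real.log r⁻¹)

lemma log_big {r : ℝ} (hr : r ∈ Ioo 0 (Real.exp (-Real.exp 1))) : Real.exp 1 < Real.log r⁻¹ := by
  rw [Real.log_inv, lt_neg]
  have h1 := Real.log_lt_log hr.1 hr.2
  rwa [Real.log_exp] at h1

lemma loglog_big {r : ℝ} (hr : r ∈ Ioo 0 (Real.exp (-Real.exp 1))) :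
    1 < Real.log (Real.log r⁻¹) := by
  rw [Real.lt_log_iff_exp_lt ((Real.exp_pos 1).trans (log_big hr))]
  exact log_big hr

lemma glog_pos : ∀ r ∈ Ioo 0 (Real.exp (-Real.exp 1)), 0 < glog r := by
  intro r hr
  have h1 := log_big hr
  have h2 := loglog_big hr
  have h3 := Real.exp_pos 1
  unfold glog
  have h4 : 0 < r := hr.1
  have h5 : 0 < Real.log r⁻¹ := h3.trans h1
  have h6 : 0 < Real.log (Real.log r⁻¹) := by linarith
  positivity

lemma glog_anti : AntitoneOn (fun r => glog r / r) (Ioo 0 (Real.exp (-Real.exp 1))) := by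
  intro a ha b hb hab
  have ha0 : 0 < a := ha.1
  have hb0 : 0 < b := hb.1
  have e : ∀ r ∈ Ioo 0 (Real.exp (-Real.exp 1)), glog r / r
      = Real.log r⁻¹ * Real.log (Real.log r⁻¹) := by
    intro r hr
    have : r ≠ 0 := hr.1.ne'
    unfold glog
    field_simp
  show glog b / b ≤ glog a / a
  rw [e a ha, e b hb]
  have h3 := Real.exp_pos 1
  have h1 := h3.trans (log_big hb)
  have h2 : Real.log b⁻¹ ≤ Real.log a⁻¹ :=
    Real.log_le_log (by positivity) (inv_anti₀ ha0 hab)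
  have h4 : Real.log (Real.log b⁻¹) ≤ Real.log (Real.log a⁻¹) := Real.log_le_log h1 h2
  have h5 := loglog_big hb
  exact mul_le_mul h2 h4 (by linarith) (by linarith)

lemma glog_ni : ¬ IntegrableAtFilter (fun r => (glog r)⁻¹) (𝓝[>] 0) := by
  rintro ⟨s, hs, hi⟩
  refine not_integrableOn_of_tendsto_norm_atTop_of_deriv_isBigO_filter
    (f := fun r : ℝ => Real.log (Real.log (Real.log r⁻¹))) (𝓝[>] 0) hs ?_ ?_ ?_ hi
  · have hmem : Ioo 0 (Real.exp (-Real.exp 1)) ∈ 𝓝[>] (0 : ℝ) :=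
      Ioo_mem_nhdsGT (Real.exp_pos _)
    filter_upwards [hmem] with r hr
    have h1 := (Real.exp_pos 1).trans (log_big hr)
    have h2 := loglog_big hr
    have h3 : r⁻¹ ≠ 0 := inv_ne_zero hr.1.ne'
    have h4 : r ≠ 0 := hr.1.ne'
    exact (((differentiableAt_inv h4).log h3).log h1.ne').log (by linarith)
  · have h1 : Tendsto (fun r : ℝ => Real.log r⁻¹) (𝓝[>] 0) atTop :=
      Real.tendsto_log_atTop.comp tendsto_inv_nhdsGT_zero
    exact tendsto_norm_atTop_atTop.comp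
      (Real.tendsto_log_atTop.comp (Real.tendsto_log_atTop.comp h1))
  · have hmem : Ioo 0 (Real.exp (-Real.exp 1)) ∈ 𝓝[>] (0 : ℝ) :=
      Ioo_mem_nhdsGT (Real.exp_pos _)
    refine IsBigO.of_bound 1 ?_
    filter_upwards [hmem] with r hr
    have h1 := (Real.exp_pos 1).trans (log_big hr)
    have h2 := loglog_big hr
    have h3 : r⁻¹ ≠ 0 := inv_ne_zero hr.1.ne'
    have h4 : r ≠ 0 := hr.1.ne'
    have d1 : HasDerivAt (fun r : ℝ => r⁻¹) (-(r ^ 2)⁻¹) r := hasDerivAt_inv h4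
    have d2 := d1.log h3
    have d3 := d2.log h1.ne'
    have d4 := d3.log (by linarith : Real.log (Real.log r⁻¹) ≠ 0)
    rw [d4.deriv, one_mul]
    apply le_of_eq
    rw [← norm_neg]
    congr 1
    unfold glog
    have h5 : Real.log r⁻¹ ≠ 0 := h1.ne'
    have h6 : Real.log (Real.log r⁻¹) ≠ 0 := by linarith
    field_simp

end Pool.Agent.Q193.NE
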