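import Pool.Agent.Q193.NE.Bd

/-!
The mean velocity and its derivative (helper193).
-/

set_option autoImplicit false

open MeasureTheory Set Metric
open scoped ContDiff ENNReal

namespace Pool.Agent.Q193.NE

open H459R3.NS W221.NS Pool.Agent.Y7 Pool.Agent.Y8 Pool.Agent.TH305.LG Pool.Agent.Q193.NS
open Pool.Agent.Y153.NS (W2 W2_nn)

lemma sqrt_W {C W r P e : ℝ} (hC : 0 ≤ C) (hr : 0 < r) (hP : 0 ≤ P) (he : 0 ≤ e)
    (hW : W ≤ C * (r * (P ^ 2 + r * e))) : √(W / r) ≤ √C * (P + √(r * e)) := by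
  have h1 : W / r ≤ C * (P ^ 2 + r * e) := by
    rw [div_le_iff₀ hr]
    linarith
  have h2 := Real.sqrt_le_sqrt h1
  refine h2.trans ?_
  rw [Real.sqrt_mul hC]
  apply mul_le_mul_of_nonneg_left _ (Real.sqrt_nonneg _)
  rw [Real.sqrt_le_left (by positivity)]
  have h3 : √(r * e) ^ 2 = r * e := Real.sq_sqrt (by positivity)
  have h4 := Real.sqrt_nonneg (r * e)
  nlinarith

lemma sqrt_re {r e : ℝ} (hr : 0 < r) (hr1 : r ≤ 1) (he : 0 ≤ e) : √(r * e) ≤ 1 + e := by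
  rw [Real.sqrt_le_left (by positivity)]
  nlinarith

/-- The bound of the derivative of the mean velocity. -/
theorem HHb : ∃ C : ℝ, 0 < C ∧ ∀ v : V → V, SPV v → (∀ x, ∑ i, pd i (fun y => v y i) x = 0) →
    ∀ (x : V) (y : ℕ → V) (a : ℕ), 4 ≤ a → (∀ l, 4 ≤ l → l ≤ a → ‖x - y l‖ ≤ rr l) →
      ∀ l, |HH (rr a) v x l| ≤ C * (RR (fun l => gF v (y l)) a
        + (‖mo (rr a) v x‖ + 2 ^ a) * PP (fun l => gF v (y l)) a + ‖mo (rr a) v x‖ ^ 2
        + 2 ^ a * (1 + energy v)) := by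
  obtain ⟨C, hC, h⟩ := hbd0
  obtain ⟨C₁, hC₁, h₁⟩ := Qm_le
  obtain ⟨C₂, hC₂, h₂⟩ := W2_le
  refine ⟨C * (C₁ + C₂ + 2 * √C₂ + 262144 + 20), by positivity,
    fun v hv hdiv x y a ha hy l => ?_⟩
  have h3 := h v hv hdiv a (a - 4) (by omega) x l
  have h4 := h₁ v hv x y a ha hy
  obtain ⟨h5, h6⟩ := h₂ v hv x y a ha hy
  have h7 := NF_le hv x ha
  have hen := energy_nn v
  have hg : ∀ l, 0 ≤ gF v (y l) := fun l => gF_nn v (y l)
  obtain ⟨P, hP⟩ : ∃ P, P = PP (fun l => gF v (y l)) a := ⟨_, rfl⟩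
  obtain ⟨R, hR⟩ : ∃ R, R = RR (fun l => gF v (y l)) a := ⟨_, rfl⟩
  have hP0 : 0 ≤ P := by rw [hP]; exact PP_nn hg a
  have hR0 : 0 ≤ R := by rw [hR]; exact RR_nn a
  have hra := rrp a
  have hra1 := rr_le1 a
  have h2a : (1 : ℝ) ≤ 2 ^ a := one_le_pow₀ (by norm_num)
  obtain ⟨c, hc⟩ : ∃ c, c = ‖mo (rr a) v x‖ := ⟨_, rfl⟩
  have hc0 : 0 ≤ c := by rw [hc]; exact norm_nonneg _
  obtain ⟨W, hW⟩ : ∃ W, W = W2 a x (fun z => v z - mo (rr a) v x) := ⟨_, rfl⟩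
  have hW0 : 0 ≤ W := by rw [hW]; exact W2_nn _ _ _
  rw [← hP, ← hW] at h6
  rw [← hR, ← hW] at h5
  rw [← hR] at h4
  rw [← hW, ← hc] at h3
  rw [← hP, ← hR, ← hc]
  have h8 := sqrt_W hC₂.le hra hP0 hen h6
  have h9 := sqrt_re hra hra1 hen
  have hs := Real.sqrt_nonneg (rr a * energy v)
  have e16 : 2 ^ (a - 4) * rr a = 1 / 16 := by
    rw [pow_rr (by omega), show a - (a - 4) = 4 by omega]
    unfold rr
    norm_num
  rw [e16] at h3
  have hsC : 0 ≤ √C₂ := Real.sqrt_nonneg _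
  -- the linear term
  have t1 : c * √(W / rr a) ≤ √C₂ * (c * P + c ^ 2 + (1 + energy v)) := by
    have h10 := mul_le_mul_of_nonneg_left h8 hc0
    refine h10.trans ?_
    have h11 : c * √(rr a * energy v) ≤ c ^ 2 + (1 + energy v) := by
      have h12 : √(rr a * energy v) ^ 2 = rr a * energy v := Real.sq_sqrt (by positivity)
      have h13 : rr a * energy v ≤ 1 * energy v := mul_le_mul_of_nonneg_right hra1 hen
      nlinarith [sq_nonneg (c - √(rr a * energy v))]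
    calc c * (√C₂ * (P + √(rr a * energy v))) = √C₂ * (c * P + c * √(rr a * energy v)) := by ring
      _ ≤ _ := by
        apply mul_le_mul_of_nonneg_left _ hsC
        linarith
  -- the viscous term
  have t2 : √W / √(rr a ^ 3) ≤ √C₂ * (2 ^ a * P + 2 ^ a * (1 + energy v)) := by
    have h10 : √W / √(rr a ^ 3) = 2 ^ a * √(W / rr a) := by
      have h11 : √(rr a ^ 3) = √(rr a) * rr a := by
        rw [show rr a ^ 3 = rr a * rr a ^ 2 by ring, Real.sqrt_mul hra.le, Real.sqrt_sq hra.le]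
      rw [h11, Real.sqrt_div hW0]
      have h12 : (2 : ℝ) ^ a = 1 / rr a := by
        rw [eq_div_iff hra.ne']
        exact two_rr a
      rw [h12]
      have h13 : √(rr a) ≠ 0 := (Real.sqrt_pos.2 hra).ne'
      field_simp
    rw [h10]
    have h11 := mul_le_mul_of_nonneg_left h8 (by positivity : (0 : ℝ) ≤ 2 ^ a)
    refine h11.trans ?_
    have h12 : (2 : ℝ) ^ a * √(rr a * energy v) ≤ 2 ^ a * (1 + energy v) :=
      mul_le_mul_of_nonneg_left h9 (by positivity)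
    calc (2 : ℝ) ^ a * (√C₂ * (P + √(rr a * energy v)))
        = √C₂ * (2 ^ a * P + 2 ^ a * √(rr a * energy v)) := by ring
      _ ≤ _ := by
        apply mul_le_mul_of_nonneg_left _ hsC
        linarith
  obtain ⟨X, hX⟩ : ∃ X, X = R + (c + 2 ^ a) * P + c ^ 2 + 2 ^ a * (1 + energy v) := ⟨_, rfl⟩
  rw [← hX]
  have p1 : 0 ≤ c * P := by positivity
  have p2 : 0 ≤ (2 : ℝ) ^ a * P := by positivity
  have p3 : 1 + energy v ≤ 2 ^ a * (1 + energy v) := le_mul_of_one_le_left (by positivity) h2a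
  have p4 : 0 ≤ c ^ 2 := sq_nonneg c
  have x1 : R ≤ X := by rw [hX]; linarith
  have x2 : R + energy v ≤ X := by rw [hX]; linarith
  have x3 : c * P + c ^ 2 + (1 + energy v) ≤ X := by rw [hX]; linarith
  have x4 : 2 ^ a * P + 2 ^ a * (1 + energy v) ≤ X := by rw [hX]; linarith
  have x5 : energy v ≤ X := by rw [hX]; linarith
  have x6 : c ^ 2 ≤ X := by rw [hX]; linarith
  have x7 : 1 + energy v ≤ X := by rw [hX]; linarith
  have q1 : Qm a (a - 4) x (fun z => v z - mo (rr a) v x) ≤ C₁ * X :=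
    h4.trans (mul_le_mul_of_nonneg_left x1 hC₁.le)
  have q2 : W ≤ C₂ * X := h5.trans (mul_le_mul_of_nonneg_left x2 hC₂.le)
  have q3 : c * √(W / rr a) ≤ √C₂ * X := t1.trans (mul_le_mul_of_nonneg_left x3 hsC)
  have q4 : √W / √(rr a ^ 3) ≤ √C₂ * X := t2.trans (mul_le_mul_of_nonneg_left x4 hsC)
  have q5 : c ^ 2 / (1 / 16) ≤ 16 * X := by
    have : c ^ 2 / (1 / 16) = 16 * c ^ 2 := by ring
    rw [this]
    linarith
  refine h3.trans ?_
  rw [mul_assoc]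
  apply mul_le_mul_of_nonneg_left _ hC.le
  have e : (C₁ + C₂ + 2 * √C₂ + 262144 + 20) * X = C₁ * X + C₂ * X + √C₂ * X + √C₂ * X
      + 262144 * X + 16 * X + X + 3 * X := by ring
  rw [e]
  linarith

/-- The two means. -/
theorem MNb : ∃ C c₀ : ℝ, 0 < c₀ ∧ c₀ ≤ C ∧ ∀ a : ℕ, 4 ≤ a → ∃ κ : ℝ, c₀ ≤ κ ∧ κ ≤ C ∧
    ∀ v : V → V, SPV v → (∀ x, ∑ i, pd i (fun y => v y i) x = 0) → ∀ (x : V) (y : ℕ → V),
      (∀ l, 4 ≤ l → l ≤ a → ‖x - y l‖ ≤ rr l) →
      ∀ l, |MN (rr a) v x l - κ * mo (rr a) v x l|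
        ≤ C * (rr a * PP (fun l => gF v (y l)) a + (1 + energy v)) := by
  obtain ⟨C, c₀, hc₀, hcC, h⟩ := mc0
  obtain ⟨C₂, hC₂, h₂⟩ := W2_le
  have hC : 0 < C := hc₀.trans_le hcC
  have hsC : 0 ≤ √C₂ := Real.sqrt_nonneg _
  refine ⟨C * (√C₂ + 1), c₀, hc₀, ?_, ?_⟩
  · have : 0 ≤ C * √C₂ := by positivity
    linarith
  intro a ha
  obtain ⟨κ, hκ1, hκ2, hκ⟩ := h a (by omega)
  refine ⟨κ, hκ1, ?_, ?_⟩
  · have : 0 ≤ C * √C₂ := by positivity
    linarith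
  intro v hv hdiv x y hy l
  refine (hκ v hv hdiv x l).trans ?_
  obtain ⟨h5, h6⟩ := h₂ v hv x y a ha hy
  have hen := energy_nn v
  have hg : ∀ l, 0 ≤ gF v (y l) := fun l => gF_nn v (y l)
  obtain ⟨P, hP⟩ : ∃ P, P = PP (fun l => gF v (y l)) a := ⟨_, rfl⟩
  have hP0 : 0 ≤ P := by rw [hP]; exact PP_nn hg a
  have hra := rrp a
  have hra1 := rr_le1 a
  obtain ⟨W, hW⟩ : ∃ W, W = W2 a x (fun z => v z - mo (rr a) v x) := ⟨_, rfl⟩
  have hW0 : 0 ≤ W := by rw [hW]; exact W2_nn _ _ _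
  rw [← hP, ← hW] at h6
  rw [← hP, ← hW]
  have h8 := sqrt_W hC₂.le hra hP0 hen h6
  have h9 := sqrt_re hra hra1 hen
  have h10 : √(W * rr a) = rr a * √(W / rr a) := by
    have e : W * rr a = rr a ^ 2 * (W / rr a) := by field_simp
    rw [e, Real.sqrt_mul (by positivity), Real.sqrt_sq hra.le]
  have h11 : rr a * √(W / rr a) ≤ √C₂ * (rr a * P + (1 + energy v)) := by
    have h12 := mul_le_mul_of_nonneg_left h8 hra.le
    refine h12.trans ?_
    have h13 : rr a * √(rr a * energy v) ≤ 1 * (1 + energy v) :=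
      mul_le_mul hra1 h9 (Real.sqrt_nonneg _) (by norm_num)
    calc rr a * (√C₂ * (P + √(rr a * energy v))) = √C₂ * (rr a * P + rr a * √(rr a * energy v)) := by
          ring
      _ ≤ _ := by
        apply mul_le_mul_of_nonneg_left _ hsC
        linarith
  rw [h10, mul_assoc]
  apply mul_le_mul_of_nonneg_left _ hC.le
  have h14 : 0 ≤ rr a * P := by positivity
  have e : (√C₂ + 1) * (rr a * P + (1 + energy v)) = √C₂ * (rr a * P + (1 + energy v))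
      + rr a * P + 1 + energy v := by ring
  rw [e]
  linarith

end Pool.Agent.Q193.NE
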