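import Pool.Agent.Y8.Asm3
import Pool.Agent.Q193.NS.Slow

/-!
The evolution of the mean velocity in terms of the local oscillations, before any use of
Poincaré inequalities (helper193).
-/

set_option autoImplicit false

open MeasureTheory Set Metric
open scoped ContDiff

namespace Pool.Agent.Q193.NE

open H459R3.NS W221.NS Pool.Agent.Y8 Pool.Agent.Y153.NS Pool.Agent.W583.MD

/-- The quadratic oscillation at the scales up to `m`. -/
noncomputable def Qm (n m : ℕ) (x : V) (w : V → V) : ℝ :=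
  ∑ k ∈ (Finset.range n).filter (fun k => k ≤ m), ((2 ^ k * rr n) ^ 4)⁻¹ * A2 x (2 ^ k * rr n) w

lemma Qm_nn (n m : ℕ) (x : V) (w : V → V) : 0 ≤ Qm n m x w :=
  Finset.sum_nonneg fun k _ => mul_nonneg (by have := rr_pos n; positivity)
    (integral_nonneg fun y => nsq_nn w y)

/-- The bound of the time derivative of the mean velocity by the oscillations. -/
theorem hbd0 : ∃ C : ℝ, 0 < C ∧ ∀ u : V → V, SPV u →
    (∀ x, ∑ i, pd i (fun y => u y i) x = 0) → ∀ n m : ℕ, 2 ≤ n → ∀ (x : V) (l : Fin 3),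
    |HH (rr n) u x l| ≤ C * (Qm n m x (fun y => u y - mo (rr n) u x)
      + W2 n x (fun y => u y - mo (rr n) u x)
      + ‖mo (rr n) u x‖ * √(W2 n x (fun y => u y - mo (rr n) u x) / rr n)
      + √(W2 n x (fun y => u y - mo (rr n) u x)) / √(rr n ^ 3)
      + NF n m u x + ‖mo (rr n) u x‖ ^ 2 / (2 ^ m * rr n) + 1 + energy u) := by
  obtain ⟨C, hC, hK⟩ := KB_ex Pool.Agent.Y8.B.p_ker2
  obtain ⟨Cz, hCz, hz⟩ := CO_ex
  refine ⟨64 * C + C + 3 * C + 3 * C + 96 * C + 144 * C + 144 * C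
    + 72 * C * Cz * 17, by positivity, fun u hu hdiv n m hn x l => ?_⟩
  have hr := rr_pos n
  have hn1 : 1 ≤ n := by omega
  set c := mo (rr n) u x with hc
  obtain ⟨ζ, hζ⟩ := hz (2 ^ m * rr n) (by positivity) x
  have hk := hK (rr n) hr (rr_le n) x
  have hid := HH_id (c := c) hu.1 hdiv hk.sG hk.sE hζ.sm hk.zG hk.zE l
  have e0 : HH (rr n) u x l = ∑ i, ∫ y, (u y i * lap (ph (fun z => gg (rr n) (z - x)) l i) y
      + u y i * adv u (ph (fun z => gg (rr n) (z - x)) l i) y) := rfl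
  rw [e0, hid]
  have a1 := b1 (c := c) hn1 hC.le hu.1 hk l
  have a2 := b2 hC.le hu hk l
  have a3 := b3 hC.le hu hk l
  have a4 := b4 (c := c) hu.1 hk l
  have a5 := b5 (c := c) hn1 hC.le hu.1 hk l
  have a6 := b6 hn1 hC.le hu.1 hk hζ l
  have a7 := b7 (c := c) hn1 hC.le hu.1 hk hζ l
  have a8 := b8 (c := c) hC.le hCz.le hu.1 hk hζ l
  have hW0 := W2_nn n x (fun y => u y - c)
  have hQ0 := Qm_nn n m x (fun y => u y - c)
  have nf : 0 ≤ NF n m u x := Finset.sum_nonneg fun k _ =>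
    mul_nonneg (by positivity) (integral_nonneg fun y => nsq_nn u y)
  have hen := energy_nn u
  set X1 := √(W2 n x (fun y => u y - c)) / √(rr n ^ 3) with hX1
  set X5 := ‖c‖ * √(W2 n x (fun y => u y - c) / rr n) with hX5
  set X8 := ‖c‖ ^ 2 / (2 ^ m * rr n) with hX8
  have x1 : 0 ≤ X1 := by positivity
  have x5 : 0 ≤ X5 := by positivity
  have x8 : 0 ≤ X8 := by positivity
  have a7' : |∫ y in ball x (1 / 2), F7 u c (fun z => gg (rr n) (z - x)) ζ l y| ≤
      144 * C * Qm n m x (fun y => u y - c) := a7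
  set T := Qm n m x (fun y => u y - c) + W2 n x (fun y => u y - c) + X5 + X1 + NF n m u x + X8
    + 1 + energy u with hT
  have hT1 : Qm n m x (fun y => u y - c) ≤ T := by rw [hT]; linarith
  have hT2 : W2 n x (fun y => u y - c) ≤ T := by rw [hT]; linarith
  have hT3 : X5 ≤ T := by rw [hT]; linarith
  have hT4 : X1 ≤ T := by rw [hT]; linarith
  have hT5 : NF n m u x ≤ T := by rw [hT]; linarith
  have hT6 : NF n m u x + X8 ≤ T := by rw [hT]; linarith
  have hT7 : 1 + energy u ≤ T := by rw [hT]; linarith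
  have hT8 : energy u ≤ T := by rw [hT]; linarith
  have q1 := a1.trans (mul_le_mul_of_nonneg_left hT4 (by positivity))
  have q2 := a2.trans (mul_le_mul_of_nonneg_left hT7 hC.le)
  have q3 := a3.trans (mul_le_mul_of_nonneg_left hT8 (by positivity))
  have q4 := a4.trans (mul_le_mul_of_nonneg_left hT2 (by positivity))
  have q5 := a5.trans (mul_le_mul_of_nonneg_left hT3 (by positivity))
  have q6 := a6.trans (mul_le_mul_of_nonneg_left hT5 (by positivity))
  have q7 := a7'.trans (mul_le_mul_of_nonneg_left hT1 (by positivity))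
  have q8 : |∫ y in ball x (1 / 2), F8 u c (fun z => gg (rr n) (z - x)) ζ l y| ≤
      72 * C * Cz * 17 * T := by
    refine a8.trans ?_
    rw [mul_assoc (72 * C * Cz)]
    exact mul_le_mul_of_nonneg_left (by linarith) (by positivity)
  have fin : ∀ (y1 y2 y3 y4 y5 y6 y7 y8 z1 z2 z3 z4 z5 z6 z7 z8 : ℝ), |y1| ≤ z1 → |y2| ≤ z2 →
      |y3| ≤ z3 → |y4| ≤ z4 → |y5| ≤ z5 → |y6| ≤ z6 → |y7| ≤ z7 → |y8| ≤ z8 →
      |y1 - y2 - y3 + y4 + y5 + y6 + y7 - y8| ≤ z1 + z2 + z3 + z4 + z5 + z6 + z7 + z8 := by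
    intro y1 y2 y3 y4 y5 y6 y7 y8 z1 z2 z3 z4 z5 z6 z7 z8 g1 g2 g3 g4 g5 g6 g7 g8
    rw [abs_le] at *
    constructor <;> linarith [g1.1, g1.2, g2.1, g2.2, g3.1, g3.2, g4.1, g4.2, g5.1, g5.2,
      g6.1, g6.2, g7.1, g7.2, g8.1, g8.2]
  refine (fin _ _ _ _ _ _ _ _ _ _ _ _ _ _ _ _ q1 q2 q3 q4 q5 q6 q7 q8).trans (le_of_eq ?_)
  ring

end Pool.Agent.Q193.NE
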