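import Pool.Agent.Q193.NE.Sums

/-!
The oscillation around the mean at the finest scale, on the balls of all scales (helper193).
-/

set_option autoImplicit false

open MeasureTheory Set Metric
open scoped ContDiff ENNReal

namespace Pool.Agent.Q193.NE

open H459R3.NS W221.NS Pool.Agent.Y7 Pool.Agent.Y8 Pool.Agent.TH305.LG Pool.Agent.Q193.NS
open Pool.Agent.Y153.NS (W2 W2_nn)

lemma nsq_shift (v : V → V) (c d z : V) :
    nsq (fun z => v z - c) z ≤ 2 * nsq (fun z => v z - d) z + 6 * ‖d - c‖ ^ 2 := by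
  unfold nsq
  simp only [Fin.sum_univ_three, Pi.sub_apply]
  have h : ∀ j, (d j - c j) ^ 2 ≤ ‖d - c‖ ^ 2 := fun j => by
    rw [← sq_abs]
    exact pow_le_pow_left₀ (abs_nonneg _) (norm_le_pi_norm (d - c) j) 2
  have h0 := h 0
  have h1 := h 1
  have h2 := h 2
  have key : ∀ a b e : ℝ, (a - b) ^ 2 ≤ 2 * (a - e) ^ 2 + 2 * (e - b) ^ 2 := by
    intro a b e
    nlinarith [sq_nonneg ((a - e) - (e - b))]
  have k0 := key (v z 0) (c 0) (d 0)
  have k1 := key (v z 1) (c 1) (d 1)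
  have k2 := key (v z 2) (c 2) (d 2)
  linarith

lemma A2_shift {v : V → V} (hv : ContDiff ℝ ∞ v) (c d x : V) {ρ : ℝ} (hρ : 0 < ρ) :
    A2 x ρ (fun z => v z - c) ≤ 2 * A2 x ρ (fun z => v z - d) + 48 * ρ ^ 3 * ‖d - c‖ ^ 2 := by
  unfold A2
  have hc1 := (nsq_sm (hv.sub (contDiff_const (c := c)))).continuous
  have hc2 := (nsq_sm (hv.sub (contDiff_const (c := d)))).continuous
  have i2 : IntegrableOn (fun z => 2 * nsq (fun z => v z - d) z) (ball x ρ) :=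
    ballint (continuous_const.mul hc2) _ _
  have i3 : IntegrableOn (fun _ : V => 6 * ‖d - c‖ ^ 2) (ball x ρ) :=
    ballint continuous_const _ _
  have h1 : ∫ z in ball x ρ, nsq (fun z => v z - c) z
      ≤ ∫ z in ball x ρ, (2 * nsq (fun z => v z - d) z + 6 * ‖d - c‖ ^ 2) :=
    setIntegral_mono (ballint hc1 _ _) (i2.add i3) fun z => nsq_shift v c d z
  rw [integral_add i2 i3, integral_const_mul] at h1
  have h2 : ∫ _ in ball x ρ, 6 * ‖d - c‖ ^ 2 = 48 * ρ ^ 3 * ‖d - c‖ ^ 2 := by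
    have h3 := Pool.Agent.Y153.NS.vol_ball x hρ
    have h4 : ∫ _ in ball x ρ, 6 * ‖d - c‖ ^ 2 = (6 * ‖d - c‖ ^ 2) * ∫ _ in ball x ρ, (1 : ℝ) := by
      rw [← integral_const_mul]
      simp
    rw [h4, h3]
    ring
  rw [h2] at h1
  exact h1

/-- The comparison of the means at two scales. -/
theorem chain : ∃ K : ℝ, 0 < K ∧ ∀ v : V → V, SPV v → ∀ (x : V) (y : ℕ → V) (i : ℕ), 4 ≤ i →
    ∀ a, i ≤ a → (∀ l, 4 ≤ l → l ≤ a → ‖x - y l‖ ≤ rr l) →
      ‖mo (rr i) v x - mo (rr a) v x‖ ≤ K * SS (fun l => gF v (y l)) (i + 1) a := by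
  obtain ⟨K, hK, h⟩ := mo_pt
  refine ⟨3 * K, by positivity, fun v hv x y i hi a hia => ?_⟩
  induction a, hia using Nat.le_induction with
  | base =>
    intro _
    rw [sub_self, norm_zero]
    exact mul_nonneg (by positivity) (SS_nn (fun l => gF_nn v (y l)) _ _)
  | succ a hia ih =>
    intro hy
    have h1 := ih fun l hl1 hl2 => hy l hl1 (by omega)
    have hya := hy (a + 1) (by omega) le_rfl
    have h2 := h v hv (a + 1) (by omega) x (y (a + 1)) hya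
    have h3 := h v hv a (by omega) x (y (a + 1)) (hya.trans (rr_mono (by omega)))
    have h4 : SS (fun l => gF v (y l)) (i + 1) (a + 1)
        = SS (fun l => gF v (y l)) (i + 1) a + rr (a + 1) * gF v (y (a + 1)) := by
      unfold SS
      rw [Finset.sum_Icc_succ_top (by omega)]
    rw [h4]
    have h5 : ‖mo (rr i) v x - mo (rr (a + 1)) v x‖ ≤ ‖mo (rr i) v x - mo (rr a) v x‖
        + (‖mo (rr a) v x - v (y (a + 1))‖ + ‖mo (rr (a + 1)) v x - v (y (a + 1))‖) := by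
      have e : mo (rr i) v x - mo (rr (a + 1)) v x = (mo (rr i) v x - mo (rr a) v x)
          + ((mo (rr a) v x - v (y (a + 1))) - (mo (rr (a + 1)) v x - v (y (a + 1)))) := by abel
      rw [e]
      exact (norm_add_le _ _).trans (add_le_add_right (norm_sub_le _ _) _)
    have h6 : rr a = 2 * rr (a + 1) := by rw [rr_succ]; ring
    rw [h6] at h3
    have e7 : 3 * K * (SS (fun l => gF v (y l)) (i + 1) a + rr (a + 1) * gF v (y (a + 1)))
        = 3 * K * SS (fun l => gF v (y l)) (i + 1) a + (K * (2 * rr (a + 1) * gF v (y (a + 1)))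
          + K * (rr (a + 1) * gF v (y (a + 1)))) := by ring
    rw [e7]
    have h8 : ‖mo (2 * rr (a + 1)) v x - v (y (a + 1))‖ = ‖mo (rr a) v x - v (y (a + 1))‖ := by
      rw [h6]
    rw [h8] at h3
    linarith

/-- The oscillation on the fine scales. -/
theorem osc1 : ∃ C : ℝ, 0 < C ∧ ∀ v : V → V, SPV v → ∀ (x : V) (y : ℕ → V) (a : ℕ),
    (∀ l, 4 ≤ l → l ≤ a → ‖x - y l‖ ≤ rr l) → ∀ i, 4 ≤ i → i ≤ a →
      A2 x (rr i) (fun z => v z - mo (rr a) v x)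
        ≤ C * (rr i ^ 3 * SS (fun l => gF v (y l)) i a ^ 2) := by
  obtain ⟨K, hK, hch⟩ := chain
  obtain ⟨K', hK', hA⟩ := A2_pt
  refine ⟨2 * K' + 48 * K ^ 2, by positivity, fun v hv x y a hy i hi hia => ?_⟩
  have hg : ∀ l, 0 ≤ gF v (y l) := fun l => gF_nn v (y l)
  have h1 := A2_shift hv.1 (mo (rr a) v x) (mo (rr i) v x) x (rrp i)
  have h2 := hA v hv i hi x (y i) (hy i hi hia)
  have h3 := hch v hv x y i hi a hia hy
  obtain ⟨S, hS⟩ : ∃ S, S = SS (fun l => gF v (y l)) i a := ⟨_, rfl⟩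
  have e1 : S = rr i * gF v (y i) + SS (fun l => gF v (y l)) (i + 1) a := by
    rw [hS]
    unfold SS
    rw [← Finset.add_sum_Ioc_eq_sum_Icc (f := fun l => rr l * gF v (y l)) hia]
    congr 1
    refine Finset.sum_congr ?_ fun _ _ => rfl
    ext l
    simp only [Finset.mem_Ioc, Finset.mem_Icc]
    omega
  have h4 : 0 ≤ SS (fun l => gF v (y l)) (i + 1) a := SS_nn hg _ _
  have hr := rrp i
  have h5 : 0 ≤ rr i * gF v (y i) := mul_nonneg hr.le (hg i)
  have hS0 : 0 ≤ S := by rw [e1]; linarith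
  have h6 : rr i * gF v (y i) ≤ S := by rw [e1]; linarith
  have h7 : SS (fun l => gF v (y l)) (i + 1) a ≤ S := by rw [e1]; linarith
  rw [← hS]
  have h8 : rr i ^ 5 * gF v (y i) ^ 2 ≤ rr i ^ 3 * S ^ 2 := by
    have : (rr i * gF v (y i)) ^ 2 ≤ S ^ 2 := pow_le_pow_left₀ h5 h6 2
    calc rr i ^ 5 * gF v (y i) ^ 2 = rr i ^ 3 * (rr i * gF v (y i)) ^ 2 := by ring
      _ ≤ _ := mul_le_mul_of_nonneg_left this (by positivity)
  have h9 : ‖mo (rr i) v x - mo (rr a) v x‖ ^ 2 ≤ K ^ 2 * S ^ 2 := by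
    rw [← mul_pow]
    exact pow_le_pow_left₀ (norm_nonneg _) (h3.trans (mul_le_mul_of_nonneg_left h7 hK.le)) 2
  have h10 := mul_le_mul_of_nonneg_left h8 hK'.le
  have h11 := mul_le_mul_of_nonneg_left h9 (by positivity : 0 ≤ 48 * rr i ^ 3)
  calc A2 x (rr i) (fun z => v z - mo (rr a) v x)
      ≤ 2 * (K' * (rr i ^ 3 * S ^ 2)) + 48 * rr i ^ 3 * (K ^ 2 * S ^ 2) := by linarith
    _ = _ := by ring

/-- The mean velocity. -/
theorem mo_a : ∃ C : ℝ, 0 < C ∧ ∀ v : V → V, SPV v → ∀ (x : V) (y : ℕ → V) (a : ℕ), 4 ≤ a →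
    (∀ l, 4 ≤ l → l ≤ a → ‖x - y l‖ ≤ rr l) →
      ‖mo (rr a) v x‖ ^ 2 ≤ C * (energy v + PP (fun l => gF v (y l)) a ^ 2) := by
  obtain ⟨K, hK, hch⟩ := chain
  obtain ⟨Km, hKm, hm⟩ := mo_bd
  refine ⟨2 * (64 * Km) ^ 2 + 2 * K ^ 2, by positivity, fun v hv x y a ha hy => ?_⟩
  have hg : ∀ l, 0 ≤ gF v (y l) := fun l => gF_nn v (y l)
  have h1 := hch v hv x y 4 le_rfl a ha hy
  have hen := energy_nn v
  have h2 := hm (√(energy v)) v hv (by rw [Real.sq_sqrt hen]) (rr 4) x (rrp 4) (rr_le1 4)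
  have e1 : √(rr 4 ^ 3) = 1 / 64 := by
    have : rr 4 ^ 3 = (1 / 64) ^ 2 := by unfold rr; norm_num
    rw [this, Real.sqrt_sq (by norm_num)]
  rw [e1, abs_of_nonneg (Real.sqrt_nonneg _)] at h2
  have h3 : SS (fun l => gF v (y l)) 5 a ≤ PP (fun l => gF v (y l)) a := by
    have h4 := SS_le_PP hg a (by norm_num : 4 ≤ 5)
    have h5 := PP_nn hg a
    have h6 := rr_le1 5
    nlinarith
  have h4 : ‖mo (rr a) v x‖ ≤ 64 * Km * √(energy v) + K * PP (fun l => gF v (y l)) a := by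
    have h5 : ‖mo (rr a) v x‖ ≤ ‖mo (rr 4) v x‖ + ‖mo (rr 4) v x - mo (rr a) v x‖ := by
      have e : mo (rr a) v x = mo (rr 4) v x - (mo (rr 4) v x - mo (rr a) v x) := by abel
      calc ‖mo (rr a) v x‖ = ‖mo (rr 4) v x - (mo (rr 4) v x - mo (rr a) v x)‖ := by rw [← e]
        _ ≤ _ := norm_sub_le _ _
    have h6 := h1.trans (mul_le_mul_of_nonneg_left h3 hK.le)
    have h7 : Km * √(energy v) / (1 / 64) = 64 * Km * √(energy v) := by ring
    rw [h7] at h2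
    linarith
  have h5 := pow_le_pow_left₀ (norm_nonneg _) h4 2
  refine h5.trans ?_
  have h6 : ∀ a b : ℝ, (a + b) ^ 2 ≤ 2 * a ^ 2 + 2 * b ^ 2 := fun a b => by
    nlinarith [sq_nonneg (a - b)]
  refine (h6 _ _).trans ?_
  rw [mul_pow (64 * Km), Real.sq_sqrt hen, mul_pow K]
  have h7 : 0 ≤ 2 * (64 * Km) ^ 2 * PP (fun l => gF v (y l)) a ^ 2 := by positivity
  have h8 : 0 ≤ 2 * K ^ 2 * energy v := by positivity
  linarith

/-- The oscillation on the coarse scales. -/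
theorem osc2 : ∃ C : ℝ, 0 < C ∧ ∀ v : V → V, SPV v → ∀ (x : V) (y : ℕ → V) (a : ℕ), 4 ≤ a →
    (∀ l, 4 ≤ l → l ≤ a → ‖x - y l‖ ≤ rr l) → ∀ i, 1 ≤ i →
      A2 x (rr i) (fun z => v z - mo (rr a) v x)
        ≤ C * (energy v + PP (fun l => gF v (y l)) a ^ 2) := by
  obtain ⟨K, hK, hm⟩ := mo_a
  refine ⟨2 + 48 * K, by positivity, fun v hv x y a ha hy i hi => ?_⟩
  have h1 := A2_shift hv.1 (mo (rr a) v x) 0 x (rrp i)
  have h2 := hm v hv x y a ha hy
  have hen := energy_nn v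
  have h3 : A2 x (rr i) (fun z => v z - 0) ≤ energy v := by
    simp only [sub_zero]
    refine (Pool.Agent.Y458.NS.A2_mono hv.1 (ball_subset_ball ?_)).trans
      (Pool.Agent.Y153.NS.ball_energy hv x)
    have : rr i ≤ rr 1 := rr_mono hi
    have e : rr 1 = 1 / 2 := by unfold rr; norm_num
    linarith
  rw [zero_sub, norm_neg] at h1
  have h4 : rr i ^ 3 ≤ 1 := pow_le_one₀ (rrp i).le (rr_le1 i)
  have h5 : 48 * rr i ^ 3 * ‖mo (rr a) v x‖ ^ 2 ≤ 48 * 1 * ‖mo (rr a) v x‖ ^ 2 := by gcongr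
  have h6 : 0 ≤ 2 * PP (fun l => gF v (y l)) a ^ 2 := by positivity
  calc _ ≤ 2 * energy v + 48 * (K * (energy v + PP (fun l => gF v (y l)) a ^ 2)) := by linarith
    _ ≤ _ := by linarith

end Pool.Agent.Q193.NE
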