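import Pool.Agent.Q193.NE.Fix

/-!
The oscillations at all scales by the maximal function at one point for each scale (helper193).
-/

set_option autoImplicit false

open MeasureTheory Set Metric
open scoped ContDiff ENNReal

namespace Pool.Agent.Q193.NE

open H459R3.NS W221.NS Pool.Agent.Y7 Pool.Agent.Y8 Pool.Agent.TH305.LG Pool.Agent.Q193.NS

lemma rrp (n : ℕ) : 0 < rr n := Pool.Agent.Y458.NS.rrp n

lemma rr_succ (n : ℕ) : rr (n + 1) = rr n / 2 := by
  rw [rr_add' n 1]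
  unfold rr
  ring

lemma two_rr (i : ℕ) : 2 ^ i * rr i = 1 := by
  unfold rr
  rw [← mul_pow]
  norm_num

lemma pow_rr {a k : ℕ} (h : k ≤ a) : 2 ^ k * rr a = rr (a - k) := by
  obtain ⟨b, rfl⟩ : ∃ b, a = k + b := ⟨a - k, by omega⟩
  rw [rr_add', Nat.add_sub_cancel_left, ← mul_assoc, two_rr, one_mul]

/-! ### Sequences -/

section

variable (g : ℕ → ℝ)

/-- The sum. -/
noncomputable def PP (a : ℕ) : ℝ := ∑ l ∈ Finset.Icc 4 a, g l

/-- The weighted sum of squares. -/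
noncomputable def RR (a : ℕ) : ℝ := ∑ l ∈ Finset.Icc 4 a, rr l * g l ^ 2

/-- The tail of the weighted sum. -/
noncomputable def SS (i a : ℕ) : ℝ := ∑ l ∈ Finset.Icc i a, rr l * g l

variable {g}

lemma PP_nn (hg : ∀ l, 0 ≤ g l) (a : ℕ) : 0 ≤ PP g a := Finset.sum_nonneg fun l _ => hg l

lemma RR_nn (a : ℕ) : 0 ≤ RR g a := Finset.sum_nonneg fun l _ => by
  have := rrp l
  positivity

lemma SS_nn (hg : ∀ l, 0 ≤ g l) (i a : ℕ) : 0 ≤ SS g i a := Finset.sum_nonneg fun l _ =>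
  mul_nonneg (rrp l).le (hg l)

lemma SS_le_PP (hg : ∀ l, 0 ≤ g l) {i : ℕ} (a : ℕ) (hi : 4 ≤ i) :
    SS g i a ≤ rr i * PP g a := by
  unfold SS PP
  rw [Finset.mul_sum]
  calc ∑ l ∈ Finset.Icc i a, rr l * g l ≤ ∑ l ∈ Finset.Icc i a, rr i * g l :=
        Finset.sum_le_sum fun l hl => mul_le_mul_of_nonneg_right
          (rr_mono (Finset.mem_Icc.1 hl).1) (hg l)
    _ ≤ _ := Finset.sum_le_sum_of_subset_of_nonneg
        (Finset.Icc_subset_Icc hi le_rfl) fun l _ _ => mul_nonneg (rrp i).le (hg l)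

lemma geoI (q : ℝ) (hq0 : 0 ≤ q) (hq1 : q < 1) (i a : ℕ) :
    ∑ l ∈ Finset.Icc i a, q ^ (l - i) ≤ (1 - q)⁻¹ := by
  have h1 : ∑ l ∈ Finset.Icc i a, q ^ (l - i) = ∑ m ∈ Finset.range (a + 1 - i), q ^ m := by
    refine Finset.sum_nbij' (fun l => l - i) (fun m => m + i) ?_ ?_ ?_ ?_ ?_
    · intro l hl
      rw [Finset.mem_Icc] at hl
      rw [Finset.mem_range]
      omega
    · intro m hm
      rw [Finset.mem_range] at hm
      rw [Finset.mem_Icc]
      omega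
    · intro l hl
      rw [Finset.mem_Icc] at hl
      omega
    · intro m hm
      simp
    · intro l hl
      rfl
  rw [h1]
  exact Pool.Agent.Y458.NS.geo hq0 hq1 _

lemma geoJ (q : ℝ) (hq0 : 0 ≤ q) (hq1 : q < 1) (i a : ℕ) :
    ∑ l ∈ Finset.Icc i a, q ^ (a - l) ≤ (1 - q)⁻¹ := by
  have h1 : ∑ l ∈ Finset.Icc i a, q ^ (a - l) = ∑ m ∈ Finset.range (a + 1 - i), q ^ m := by
    refine Finset.sum_nbij' (fun l => a - l) (fun m => a - m) ?_ ?_ ?_ ?_ ?_
    · intro l hl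
      rw [Finset.mem_Icc] at hl
      rw [Finset.mem_range]
      omega
    · intro m hm
      rw [Finset.mem_range] at hm
      rw [Finset.mem_Icc]
      omega
    · intro l hl
      rw [Finset.mem_Icc] at hl
      omega
    · intro m hm
      rw [Finset.mem_range] at hm
      omega
    · intro l hl
      rfl
  rw [h1]
  exact Pool.Agent.Y458.NS.geo hq0 hq1 _

lemma rr_split {i l : ℕ} (h : i ≤ l) : rr l = rr i * (1 / 2) ^ (l - i) := by
  obtain ⟨m, rfl⟩ : ∃ m, l = i + m := ⟨l - i, by omega⟩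
  rw [rr_add', Nat.add_sub_cancel_left]
  rfl

/-- The weighted Cauchy-Schwarz inequality. -/
lemma SS_sq (i a : ℕ) : SS g i a ^ 2 ≤
    4 * rr i * ∑ l ∈ Finset.Icc i a, (2 / 3) ^ (l - i) * (rr l * g l ^ 2) := by
  unfold SS
  have h1 := Finset.sum_sq_le_sum_mul_sum_of_sq_le_mul (Finset.Icc i a)
    (r := fun l => rr l * g l) (f := fun l => rr l * (3 / 2) ^ (l - i))
    (g := fun l => (2 / 3) ^ (l - i) * (rr l * g l ^ 2))
    (fun l _ => mul_nonneg (rrp l).le (by positivity))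
    (fun l _ => mul_nonneg (by positivity) (mul_nonneg (rrp l).le (sq_nonneg _)))
    (fun l _ => by
      have e : ((3 : ℝ) / 2) ^ (l - i) * (2 / 3) ^ (l - i) = 1 := by
        rw [← mul_pow]
        norm_num
      refine le_of_eq ?_
      linear_combination (-(rr l ^ 2 * g l ^ 2)) * e)
  refine h1.trans (mul_le_mul_of_nonneg_right ?_ (Finset.sum_nonneg fun l _ =>
    mul_nonneg (by positivity) (mul_nonneg (rrp l).le (sq_nonneg _))))
  have h2 : ∀ l ∈ Finset.Icc i a, rr l * (3 / 2) ^ (l - i) = rr i * (3 / 4) ^ (l - i) := by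
    intro l hl
    rw [rr_split (Finset.mem_Icc.1 hl).1, mul_assoc, ← mul_pow]
    norm_num
  rw [Finset.sum_congr rfl h2, ← Finset.mul_sum]
  have h3 := geoI (3 / 4) (by norm_num) (by norm_num) i a
  have h4 := mul_le_mul_of_nonneg_left h3 (rrp i).le
  refine h4.trans (le_of_eq ?_)
  norm_num
  ring

lemma dbl {ρ : ℕ → ℝ} (hρ : ∀ l, 0 ≤ ρ l) (a : ℕ) :
    ∑ i ∈ Finset.Icc 4 a, ∑ l ∈ Finset.Icc i a, (2 / 3 : ℝ) ^ (l - i) * ρ l
      ≤ 3 * ∑ l ∈ Finset.Icc 4 a, ρ l := by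
  have h1 : ∑ i ∈ Finset.Icc 4 a, ∑ l ∈ Finset.Icc i a, (2 / 3 : ℝ) ^ (l - i) * ρ l
      = ∑ l ∈ Finset.Icc 4 a, ∑ i ∈ Finset.Icc 4 l, (2 / 3 : ℝ) ^ (l - i) * ρ l := by
    apply Finset.sum_comm'
    intro i l
    simp only [Finset.mem_Icc]
    omega
  rw [h1, Finset.mul_sum]
  refine Finset.sum_le_sum fun l _ => ?_
  rw [← Finset.sum_mul]
  apply mul_le_mul_of_nonneg_right _ (hρ l)
  refine (geoJ (2 / 3) (by norm_num) (by norm_num) 4 l).trans ?_
  norm_num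

lemma SS_sum (a : ℕ) : ∑ i ∈ Finset.Icc 4 a, (rr i)⁻¹ * SS g i a ^ 2 ≤ 12 * RR g a := by
  have h1 : ∀ i ∈ Finset.Icc 4 a, (rr i)⁻¹ * SS g i a ^ 2
      ≤ 4 * ∑ l ∈ Finset.Icc i a, (2 / 3) ^ (l - i) * (rr l * g l ^ 2) := by
    intro i _
    have hr := rrp i
    have h2 := mul_le_mul_of_nonneg_left (SS_sq (g := g) i a) (inv_nonneg.2 hr.le)
    refine h2.trans (le_of_eq ?_)
    field_simp
  refine (Finset.sum_le_sum h1).trans ?_
  rw [← Finset.mul_sum]
  have h2 := dbl (ρ := fun l => rr l * g l ^ 2) (fun l => mul_nonneg (rrp l).le (sq_nonneg _)) a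
  unfold RR
  linarith

/-- The square of the sum. -/
lemma PP_sq (a : ℕ) : rr a * PP g a ^ 2 ≤ 4 * RR g a := by
  unfold PP RR
  have h1 := Finset.sum_sq_le_sum_mul_sum_of_sq_le_mul (Finset.Icc 4 a)
    (r := fun l => g l) (f := fun l => (3 / 4 : ℝ) ^ (a - l))
    (g := fun l => (4 / 3) ^ (a - l) * g l ^ 2)
    (fun l _ => by positivity) (fun l _ => by positivity)
    (fun l _ => by
      have e : ((3 : ℝ) / 4) ^ (a - l) * (4 / 3) ^ (a - l) = 1 := by
        rw [← mul_pow]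
        norm_num
      refine le_of_eq ?_
      linear_combination (-(g l ^ 2)) * e)
  have h2 := geoJ (3 / 4) (by norm_num) (by norm_num) 4 a
  have h3 : 0 ≤ ∑ l ∈ Finset.Icc 4 a, (4 / 3 : ℝ) ^ (a - l) * g l ^ 2 :=
    Finset.sum_nonneg fun l _ => by positivity
  have h4 : (∑ l ∈ Finset.Icc 4 a, g l) ^ 2 ≤ 4 * ∑ l ∈ Finset.Icc 4 a, (4 / 3 : ℝ) ^ (a - l) * g l ^ 2 := by
    refine h1.trans (mul_le_mul_of_nonneg_right (h2.trans ?_) h3)
    norm_num
  have h5 := mul_le_mul_of_nonneg_left h4 (rrp a).le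
  refine h5.trans ?_
  rw [Finset.mul_sum, Finset.mul_sum, Finset.mul_sum]
  refine Finset.sum_le_sum fun l hl => ?_
  have hla := (Finset.mem_Icc.1 hl).2
  rw [rr_split hla]
  have e : rr l * (1 / 2) ^ (a - l) * (4 * ((4 / 3) ^ (a - l) * g l ^ 2))
      = 4 * (rr l * g l ^ 2) * (2 / 3) ^ (a - l) := by
    have : ((1 : ℝ) / 2) ^ (a - l) * (4 / 3) ^ (a - l) = (2 / 3) ^ (a - l) := by
      rw [← mul_pow]
      norm_num
    rw [← this]
    ring
  rw [e]
  have h6 : ((2 : ℝ) / 3) ^ (a - l) ≤ 1 := pow_le_one₀ (by norm_num) (by norm_num)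
  have h7 : 0 ≤ 4 * (rr l * g l ^ 2) := by have := rrp l; positivity
  nlinarith

/-- Reindexing. -/
lemma sum_rev (F : ℕ → ℝ) {a b : ℕ} (hb : b ≤ a) :
    ∑ k ∈ (Finset.range a).filter (fun k => k ≤ a - b), F (a - k)
      = ∑ i ∈ Finset.Icc (max b 1) a, F i := by
  refine Finset.sum_nbij' (fun k => a - k) (fun i => a - i) ?_ ?_ ?_ ?_ ?_
  · intro k hk
    rw [Finset.mem_filter, Finset.mem_range] at hk
    rw [Finset.mem_Icc]
    omega
  · intro i hi
    rw [Finset.mem_Icc] at hi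
    rw [Finset.mem_filter, Finset.mem_range]
    omega
  · intro k hk
    rw [Finset.mem_filter, Finset.mem_range] at hk
    omega
  · intro i hi
    rw [Finset.mem_Icc] at hi
    omega
  · intro k hk
    rfl

end

end Pool.Agent.Q193.NE
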