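import Mathlib

/-!
The change of the mean velocity in a short window: an abstract lemma (helper193).
-/

set_option autoImplicit false

open MeasureTheory Set Metric Filter Topology

namespace Pool.Agent.Q193.NE

/-- The change of the mean velocity in a short window. -/
lemma sup2 {W : Type*} [NormedAddCommGroup W] [NormedSpace ℝ W] {r q w p ρ L κ C₀ c₀ e t₀ : ℝ}
    {G : Set ℝ} {M c : ℝ → W} {h P R : ℝ → ℝ} {I : Set ℝ} (hI : I = Ioo (t₀ - w) (t₀ + w))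
    (hr : 0 < r) (hq : 0 ≤ q) (hw : 0 < w) (hL : 0 ≤ L) (hc₀ : 0 < c₀) (hκ : c₀ ≤ κ)
    (hC₀ : 0 < C₀) (he : 0 ≤ e) (hnull : volume (I \ G) = 0)
    (hP0 : ∀ t, 0 ≤ P t) (hR0 : ∀ t, 0 ≤ R t)
    (iP : IntegrableOn P I) (iR : IntegrableOn R I) (ih : IntegrableOn h I)
    (hP : ∫ t in I, P t ≤ p) (hR : ∫ t in I, R t ≤ ρ) (hPR : ∀ t, r * P t ^ 2 ≤ 4 * R t)
    (hM : ∀ s ∈ I ∩ G, ∀ t ∈ I ∩ G, s ≤ t → ‖M t - M s‖ ≤ ∫ τ in Ioo s t, h τ)
    (hh0 : ∀ t, 0 ≤ h t)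
    (hh : ∀ t ∈ I ∩ G, h t ≤ C₀ * (R t + (‖c t‖ + q) * P t + ‖c t‖ ^ 2 + q * e))
    (hMc : ∀ t ∈ I ∩ G, ‖M t - κ • c t‖ ≤ C₀ * (r * P t + e))
    (hcL : ∀ t ∈ I ∩ G, ‖c t‖ ≤ L)
    (hsmall : C₀ / c₀ * (p + 2 * w * L) ≤ 1 / 2) :
    ∀ s ∈ I ∩ G, ∀ t ∈ I ∩ G, ‖M t - M s‖ ≤ 2 * (C₀ / c₀ * (p + 2 * w * L)) * ‖M s‖
      + 2 * (C₀ * ((1 + 4 * C₀ / c₀) * ρ + (q + C₀ * e / c₀) * p + 2 * w * (q * e)
        + L / c₀ * (C₀ * (r * p + 2 * w * e)))) := by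
  intro s₀ hs₀ t₁ ht₁
  have hI0 : MeasurableSet I := by rw [hI]; exact measurableSet_Ioo
  have hIf : volume I ≠ ⊤ := by rw [hI]; exact measure_Ioo_lt_top.ne
  have hvol : volume.real I = 2 * w := by
    rw [hI, measureReal_def, Real.volume_Ioo, ENNReal.toReal_ofReal (by linarith)]
    ring
  have hp0 : 0 ≤ p := (integral_nonneg hP0).trans hP
  have hρ0 : 0 ≤ ρ := (integral_nonneg hR0).trans hR
  have hdiff : ∀ s ∈ I ∩ G, ∀ t ∈ I ∩ G, ‖M t - M s‖ ≤ ∫ τ in I, h τ := by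
    have key : ∀ s ∈ I ∩ G, ∀ t ∈ I ∩ G, s ≤ t → ‖M t - M s‖ ≤ ∫ τ in I, h τ := by
      intro s hs t ht hst
      refine (hM s hs t ht hst).trans (setIntegral_mono_set ih (Eventually.of_forall hh0) ?_)
      refine LE.le.eventuallyLE ?_
      have h1 := hs.1
      have h2 := ht.1
      rw [hI] at h1 h2 ⊢
      exact Ioo_subset_Ioo h1.1.le h2.2.le
    intro s hs t ht
    rcases le_total s t with hst | hst
    · exact key s hs t ht hst
    · rw [norm_sub_rev]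
      exact key t ht s hs hst
  obtain ⟨D, hD⟩ : ∃ D, D = ∫ τ in I, h τ := ⟨_, rfl⟩
  rw [← hD] at hdiff
  have hD0 : 0 ≤ D := by rw [hD]; exact integral_nonneg hh0
  obtain ⟨S, hS⟩ : ∃ S, S = ‖M s₀‖ + D := ⟨_, rfl⟩
  have hSle : ∀ t ∈ I ∩ G, ‖M t‖ ≤ S := by
    intro t ht
    have h1 := hdiff s₀ hs₀ t ht
    have h3 : ‖M t‖ ≤ ‖M s₀‖ + ‖M t - M s₀‖ := by
      have := norm_add_le (M s₀) (M t - M s₀)
      rwa [add_sub_cancel] at this
    rw [hS]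
    linarith
  have hS0 : 0 ≤ S := by rw [hS]; positivity
  have hc : ∀ t ∈ I ∩ G, ‖c t‖ ≤ (S + C₀ * (r * P t + e)) / c₀ := by
    intro t ht
    rw [le_div_iff₀ hc₀, mul_comm]
    have h1 : c₀ * ‖c t‖ ≤ κ * ‖c t‖ := mul_le_mul_of_nonneg_right hκ (norm_nonneg _)
    have h2 : κ * ‖c t‖ = ‖κ • c t‖ := by
      rw [norm_smul, Real.norm_eq_abs, abs_of_pos (hc₀.trans_le hκ)]
    have h3 : ‖κ • c t‖ ≤ ‖M t‖ + ‖M t - κ • c t‖ := by
      calc ‖κ • c t‖ = ‖M t - (M t - κ • c t)‖ := by rw [sub_sub_cancel]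
        _ ≤ _ := norm_sub_le _ _
    have h4 := hMc t ht
    have h5 := hSle t ht
    linarith
  -- the pointwise bound
  obtain ⟨a₁, ha₁⟩ : ∃ a, a = 1 + 4 * C₀ / c₀ := ⟨_, rfl⟩
  obtain ⟨a₂, ha₂⟩ : ∃ a, a = q + (S + C₀ * e) / c₀ + L / c₀ * (C₀ * r) := ⟨_, rfl⟩
  obtain ⟨a₄, ha₄⟩ : ∃ a, a = q * e + L / c₀ * (S + C₀ * e) := ⟨_, rfl⟩
  have ha₁0 : 0 ≤ a₁ := by rw [ha₁]; positivity
  have ha₂0 : 0 ≤ a₂ := by rw [ha₂]; positivity
  have ha₄0 : 0 ≤ a₄ := by rw [ha₄]; positivity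
  have hpt : ∀ t ∈ I ∩ G, h t ≤ C₀ * (a₁ * R t + a₂ * P t + a₄) := by
    intro t ht
    refine (hh t ht).trans (mul_le_mul_of_nonneg_left ?_ hC₀.le)
    have h1 := hc t ht
    have h2 := hcL t ht
    have hPt := hP0 t
    have h3 : ‖c t‖ * P t ≤ (S + C₀ * e) / c₀ * P t + 4 * C₀ / c₀ * R t := by
      have h4 : ‖c t‖ * P t ≤ (S + C₀ * (r * P t + e)) / c₀ * P t :=
        mul_le_mul_of_nonneg_right h1 hPt
      have h5 : (S + C₀ * (r * P t + e)) / c₀ * P t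
          = (S + C₀ * e) / c₀ * P t + C₀ / c₀ * (r * P t ^ 2) := by
        field_simp
        ring
      have h6 := mul_le_mul_of_nonneg_left (hPR t) (by positivity : 0 ≤ C₀ / c₀)
      have h7 : C₀ / c₀ * (4 * R t) = 4 * C₀ / c₀ * R t := by ring
      linarith
    have h5 : ‖c t‖ ^ 2 ≤ L / c₀ * (C₀ * r) * P t + L / c₀ * (S + C₀ * e) := by
      have h6 : ‖c t‖ ^ 2 ≤ L * ((S + C₀ * (r * P t + e)) / c₀) := by
        rw [sq]
        exact mul_le_mul h2 h1 (norm_nonneg _) hL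
      refine h6.trans (le_of_eq ?_)
      field_simp
      ring
    rw [ha₁, ha₂, ha₄]
    nlinarith
  have hint : D ≤ C₀ * (a₁ * ρ + a₂ * p + a₄ * (2 * w)) := by
    have i1 : Integrable (fun t => a₁ * R t) (volume.restrict I) := iR.const_mul _
    have i2 : Integrable (fun t => a₂ * P t) (volume.restrict I) := iP.const_mul _
    have i3 : Integrable (fun _ : ℝ => a₄) (volume.restrict I) :=
      integrableOn_const (μ := volume) (s := I) (C := a₄) hIf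
    have i4 : Integrable (fun t => a₁ * R t + a₂ * P t) (volume.restrict I) := i1.add i2
    have i5 : Integrable (fun t => a₁ * R t + a₂ * P t + a₄) (volume.restrict I) := i4.add i3
    have h1 : ∫ τ in I, h τ ≤ ∫ t in I, C₀ * (a₁ * R t + a₂ * P t + a₄) := by
      refine integral_mono_ae ih (i5.const_mul _) ?_
      have h2 : ∀ᵐ t ∂(volume.restrict I), t ∈ G := by
        rw [ae_iff, Measure.restrict_apply' hI0]
        refine measure_mono_null ?_ hnull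
        rintro t ⟨ht1, ht2⟩
        exact ⟨ht2, ht1⟩
      filter_upwards [h2, ae_restrict_mem hI0] with t ht ht'
      exact hpt t ⟨ht', ht⟩
    rw [integral_const_mul, integral_add i4 i3, integral_add i1 i2,
      integral_const_mul, integral_const_mul, setIntegral_const, hvol, smul_eq_mul] at h1
    rw [hD]
    refine h1.trans (mul_le_mul_of_nonneg_left ?_ hC₀.le)
    have h2 : a₁ * ∫ t in I, R t ≤ a₁ * ρ := mul_le_mul_of_nonneg_left hR ha₁0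
    have h3 : a₂ * ∫ t in I, P t ≤ a₂ * p := mul_le_mul_of_nonneg_left hP ha₂0
    linarith
  obtain ⟨lm, hlm⟩ : ∃ l, l = C₀ / c₀ * (p + 2 * w * L) := ⟨_, rfl⟩
  obtain ⟨Z, hZ⟩ : ∃ Z, Z = C₀ * ((1 + 4 * C₀ / c₀) * ρ + (q + C₀ * e / c₀) * p + 2 * w * (q * e)
        + L / c₀ * (C₀ * (r * p + 2 * w * e))) := ⟨_, rfl⟩
  rw [← hlm] at hsmall ⊢
  rw [← hZ]
  have hlm0 : 0 ≤ lm := by rw [hlm]; positivity
  have hZ0 : 0 ≤ Z := by rw [hZ]; positivity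
  have hDS : D ≤ lm * S + Z := by
    refine hint.trans (le_of_eq ?_)
    rw [ha₁, ha₂, ha₄, hlm, hZ]
    field_simp
    ring
  have h1 := hdiff s₀ hs₀ t₁ ht₁
  rw [hS] at hDS
  have hn := norm_nonneg (M s₀)
  nlinarith

end Pool.Agent.Q193.NE
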