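import Pool.Agent.Q193.NE.Hb
import Pool.Agent.Q193.NE.Sup
import Pool.Agent.Q193.NS.Fast5

/-!
Integrals in time of the maximal function at a point (helper193).
-/

set_option autoImplicit false

open MeasureTheory Set Metric Filter Topology
open scoped ContDiff ENNReal

namespace Pool.Agent.Q193.NE

open H459R3.NS W221.NS Pool.Agent.Y7 Pool.Agent.Y8 Pool.Agent.Y458.NS Pool.Agent.TH305.LG
open Pool.Agent.Y8.WS
open Pool.Agent.Q193.NS (rr_mono rr_le1 int_sqrt)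

/-- The windows. -/
def Wi (n a : ℕ) (t₀ : ℝ) : Set ℝ :=
  Ioo (t₀ - 1024 * (rr a * rr n)) (t₀ + 1024 * (rr a * rr n))

lemma Wi_meas (n a : ℕ) (t₀ : ℝ) : MeasurableSet (Wi n a t₀) := measurableSet_Ioo

lemma Wi_mono {n a b : ℕ} (h : a ≤ b) (t₀ : ℝ) : Wi n b t₀ ⊆ Wi n a t₀ := by
  unfold Wi
  have h1 : rr b * rr n ≤ rr a * rr n := mul_le_mul_of_nonneg_right (rr_mono h) (NE.rrp n).le
  exact Ioo_subset_Ioo (by linarith) (by linarith)

lemma Wi_fin (n a : ℕ) (t₀ : ℝ) : volume (Wi n a t₀) ≠ ⊤ := by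
  unfold Wi
  exact measure_Ioo_lt_top.ne

lemma Wi_vol (n a : ℕ) (t₀ : ℝ) : volume.real (Wi n a t₀) = 2 * (1024 * (rr a * rr n)) := by
  unfold Wi
  have h1 := NE.rrp a
  have h2 := NE.rrp n
  rw [measureReal_def, Real.volume_Ioo, ENNReal.toReal_ofReal (by nlinarith [mul_pos h1 h2])]
  ring

/-- The hypothesis: at each scale there is a point near `x₀` with a small maximal function in the
window. -/
def Gd (σ : ℝ) (G : Set ℝ) (u : ℝ → V → V) (n : ℕ) (t₀ : ℝ) (x₀ : V) (y : ℕ → V) : Prop :=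
  ∀ l, 4 ≤ l → l ≤ n → ‖x₀ - y l‖ ≤ rr l ∧
    ∫⁻ τ in Wi n l t₀, FtO 1 G u (τ, y l)
      ≤ ENNReal.ofReal (σ ^ 2 * (9 / 16) ^ (n - l) / (4096 * (rr l * rr n)))

section

variable {T E D : ℝ} {G : Set ℝ} {u : ℝ → V → V} {p : ℝ → V → ℝ}

lemma ae_G {W : Set ℝ} (hW0 : MeasurableSet W) (hW : W ≤ᵐ[volume] G) :
    ∀ᵐ t ∂(volume.restrict W), t ∈ G := by
  rw [ae_restrict_iff' hW0]
  exact hW

lemma gF_meas (h : Turb 1 T E D G u p) {W : Set ℝ} (hW0 : MeasurableSet W)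
    (hW : W ≤ᵐ[volume] G) (y : V) :
    AEStronglyMeasurable (fun t => gF (u t) y) (volume.restrict W) := by
  have h0 : Measurable (fun t : ℝ => FtO 1 G u (t, y)) :=
    (FtO_meas 1 h.openG h.smooth_u).comp (measurable_id.prodMk measurable_const)
  have h1 : Measurable (fun t => √((FtO 1 G u (t, y)).toReal)) := h0.ennreal_toReal.sqrt
  refine h1.aestronglyMeasurable.congr ?_
  filter_upwards [ae_G hW0 hW] with t ht
  rw [FtO_eq 1 u ht]
  rfl

lemma gF_int (h : Turb 1 T E D G u p) {W : Set ℝ} (hW0 : MeasurableSet W)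
    (hWf : volume W ≠ ⊤) (hW : W ≤ᵐ[volume] G) {y : V} {Q : ℝ} (hQ : 0 ≤ Q)
    (hF : ∫⁻ τ in W, FtO 1 G u (τ, y) ≤ ENNReal.ofReal Q) :
    (IntegrableOn (fun t => gF (u t) y ^ 2) W ∧ ∫ t in W, gF (u t) y ^ 2 ≤ Q) ∧
    IntegrableOn (fun t => gF (u t) y) W ∧
      ∀ L, 0 < L → volume.real W ≤ L → ∫ t in W, gF (u t) y ≤ √(L * Q) := by
  have hm := gF_meas h hW0 hW y
  have hm2 : AEStronglyMeasurable (fun t => gF (u t) y ^ 2) (volume.restrict W) := hm.pow 2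
  have e : ∫⁻ t in W, ENNReal.ofReal (gF (u t) y ^ 2) = ∫⁻ τ in W, FtO 1 G u (τ, y) := by
    refine lintegral_congr_ae ?_
    filter_upwards [ae_G hW0 hW] with t ht
    rw [FtO_eq 1 u ht, Fx_gF (h.spv ht)]
  have h0 : ∀ t, 0 ≤ gF (u t) y ^ 2 := fun t => sq_nonneg _
  have h1 : IntegrableOn (fun t => gF (u t) y ^ 2) W := by
    refine (lintegral_ofReal_ne_top_iff_integrable hm2 (Eventually.of_forall h0)).1 ?_
    rw [e]
    exact ne_top_of_le_ne_top ENNReal.ofReal_ne_top hF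
  have h2 : ∫ t in W, gF (u t) y ^ 2 ≤ Q := by
    rw [integral_eq_lintegral_of_nonneg_ae (Eventually.of_forall h0) hm2, e]
    exact ENNReal.toReal_le_of_le_ofReal hQ hF
  have h3 : IntegrableOn (fun t => gF (u t) y) W := by
    have h4 : IntegrableOn (fun t => 1 + gF (u t) y ^ 2) W :=
      (integrableOn_const (μ := volume) (s := W) (C := (1 : ℝ)) hWf).add h1
    refine Integrable.mono' h4 hm (Eventually.of_forall fun t => ?_)
    have h5 := gF_nn (u t) y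
    rw [Real.norm_eq_abs, abs_of_nonneg h5]
    nlinarith
  refine ⟨⟨h1, h2⟩, h3, fun L hL hWL => ?_⟩
  have e2 : (fun t => gF (u t) y) = fun t => √(gF (u t) y ^ 2) := by
    funext t
    rw [Real.sqrt_sq (gF_nn _ _)]
  rw [e2] at h3 ⊢
  exact int_sqrt hW0 hWf h1 h0 h3 hWL h2 hL hQ

lemma two_rr_inv (n : ℕ) : (rr n)⁻¹ = 2 ^ n := by
  exact (eq_inv_of_mul_eq_one_left (NE.two_rr n)).symm

/-- The integrals of the sums. -/
lemma gd_int (h : Turb 1 T E D G u p) {σ : ℝ} (hσ : 0 ≤ σ) {n : ℕ} {t₀ : ℝ} {x₀ : V}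
    {y : ℕ → V} (hg : Gd σ G u n t₀ x₀ y) (hT : Wi n 4 t₀ ⊆ Ioo 0 T) {a : ℕ} (ha : 4 ≤ a)
    (han : a ≤ n) :
    (IntegrableOn (fun t => PP (fun l => gF (u t) (y l)) a) (Wi n a t₀) ∧
      ∫ t in Wi n a t₀, PP (fun l => gF (u t) (y l)) a ≤ 4 * σ * (3 / 4) ^ (n - a)) ∧
    (IntegrableOn (fun t => RR (fun l => gF (u t) (y l)) a) (Wi n a t₀) ∧
      ∫ t in Wi n a t₀, RR (fun l => gF (u t) (y l)) a
        ≤ 4 * σ ^ 2 * 2 ^ n * (3 / 4) ^ (n - a)) := by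
  have hrn := NE.rrp n
  have key : ∀ l, 4 ≤ l → l ≤ a →
      (IntegrableOn (fun t => gF (u t) (y l)) (Wi n a t₀) ∧
        ∫ t in Wi n a t₀, gF (u t) (y l) ≤ σ * (3 / 4) ^ (n - l)) ∧
      (IntegrableOn (fun t => rr l * gF (u t) (y l) ^ 2) (Wi n a t₀) ∧
        ∫ t in Wi n a t₀, rr l * gF (u t) (y l) ^ 2 ≤ σ ^ 2 * 2 ^ n * (3 / 4) ^ (n - l)) := by
    intro l hl hla
    have hrl := NE.rrp l
    have hsub : Wi n a t₀ ⊆ Wi n l t₀ := Wi_mono hla t₀
    have hae := sub_ae h ((Wi_mono hl t₀).trans hT)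
    obtain ⟨Q, hQ⟩ : ∃ Q, Q = σ ^ 2 * (9 / 16) ^ (n - l) / (4096 * (rr l * rr n)) := ⟨_, rfl⟩
    have hQ0 : 0 ≤ Q := by rw [hQ]; positivity
    have h1 := (hg l hl (hla.trans han)).2
    rw [← hQ] at h1
    obtain ⟨⟨i1, i2⟩, i3, i4⟩ := gF_int h (Wi_meas n l t₀) (Wi_fin n l t₀) hae hQ0 h1
    have i5 := i4 (2 * (1024 * (rr l * rr n))) (by positivity) (Wi_vol n l t₀).le
    have p916 : ((9 : ℝ) / 16) ^ (n - l) = ((3 / 4) ^ (n - l)) ^ 2 := by
      rw [← pow_mul, mul_comm, pow_mul]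
      norm_num
    have p34 : ((3 : ℝ) / 4) ^ (n - l) ≤ 1 := pow_le_one₀ (by norm_num) (by norm_num)
    have p340 : (0 : ℝ) ≤ (3 / 4) ^ (n - l) := by positivity
    refine ⟨⟨i3.mono_set hsub, ?_⟩, ⟨(i1.mono_set hsub).const_mul _, ?_⟩⟩
    · refine (setIntegral_mono_set i3 (Eventually.of_forall fun t => gF_nn _ _)
        hsub.eventuallyLE).trans (i5.trans ?_)
      rw [Real.sqrt_le_left (by positivity)]
      have e : 2 * (1024 * (rr l * rr n)) * Q = (σ * (3 / 4) ^ (n - l)) ^ 2 / 2 := by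
        rw [hQ, p916]
        field_simp
        ring
      rw [e]
      have : 0 ≤ (σ * (3 / 4) ^ (n - l)) ^ 2 := sq_nonneg _
      linarith
    · rw [integral_const_mul]
      have h2 := (setIntegral_mono_set i1 (Eventually.of_forall fun t => sq_nonneg _)
        hsub.eventuallyLE).trans i2
      refine (mul_le_mul_of_nonneg_left h2 hrl.le).trans ?_
      have e : rr l * Q = σ ^ 2 * (rr n)⁻¹ * ((3 / 4) ^ (n - l)) ^ 2 / 4096 := by
        rw [hQ, p916]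
        field_simp
      rw [e, two_rr_inv]
      have h3 : ((3 / 4 : ℝ) ^ (n - l)) ^ 2 ≤ (3 / 4) ^ (n - l) := by nlinarith
      have h4 : 0 ≤ σ ^ 2 * 2 ^ n := by positivity
      have h5 := mul_le_mul_of_nonneg_left h3 h4
      have h6 : 0 ≤ σ ^ 2 * 2 ^ n * ((3 / 4 : ℝ) ^ (n - l)) ^ 2 := by positivity
      linarith
  have geo : ∑ l ∈ Finset.Icc 4 a, ((3 : ℝ) / 4) ^ (n - l) ≤ 4 * (3 / 4) ^ (n - a) := by
    have h1 : ∀ l ∈ Finset.Icc 4 a, ((3 : ℝ) / 4) ^ (n - l)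
        = (3 / 4) ^ (n - a) * (3 / 4) ^ (a - l) := by
      intro l hl
      rw [Finset.mem_Icc] at hl
      rw [← pow_add]
      congr 1
      omega
    rw [Finset.sum_congr rfl h1, ← Finset.mul_sum, mul_comm]
    refine mul_le_mul_of_nonneg_right ?_ (by positivity)
    refine (geoJ (3 / 4) (by norm_num) (by norm_num) 4 a).trans ?_
    norm_num
  refine ⟨⟨?_, ?_⟩, ?_, ?_⟩
  · unfold PP
    exact integrable_finsetSum _ fun l hl => by
      rw [Finset.mem_Icc] at hl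
      exact (key l hl.1 hl.2).1.1
  · unfold PP
    rw [integral_finsetSum _ fun l hl => by
      rw [Finset.mem_Icc] at hl
      exact (key l hl.1 hl.2).1.1]
    have h1 : ∑ l ∈ Finset.Icc 4 a, ∫ t in Wi n a t₀, gF (u t) (y l)
        ≤ ∑ l ∈ Finset.Icc 4 a, σ * (3 / 4) ^ (n - l) := Finset.sum_le_sum fun l hl => by
      rw [Finset.mem_Icc] at hl
      exact (key l hl.1 hl.2).1.2
    refine h1.trans ?_
    rw [← Finset.mul_sum]
    have h2 := mul_le_mul_of_nonneg_left geo hσ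
    linarith
  · unfold RR
    exact integrable_finsetSum _ fun l hl => by
      rw [Finset.mem_Icc] at hl
      exact (key l hl.1 hl.2).2.1
  · unfold RR
    rw [integral_finsetSum _ fun l hl => by
      rw [Finset.mem_Icc] at hl
      exact (key l hl.1 hl.2).2.1]
    have h1 : ∑ l ∈ Finset.Icc 4 a, ∫ t in Wi n a t₀, rr l * gF (u t) (y l) ^ 2
        ≤ ∑ l ∈ Finset.Icc 4 a, σ ^ 2 * 2 ^ n * (3 / 4) ^ (n - l) :=
      Finset.sum_le_sum fun l hl => by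
        rw [Finset.mem_Icc] at hl
        exact (key l hl.1 hl.2).2.2
    refine h1.trans ?_
    rw [← Finset.mul_sum]
    have h2 := mul_le_mul_of_nonneg_left geo (by positivity : 0 ≤ σ ^ 2 * 2 ^ n)
    linarith

/-- The derivative of the mean velocity, all components. -/
noncomputable def hf (a : ℕ) (v : V → V) (x : V) : ℝ := ∑ l, |HH (rr a) v x l|

lemma hf_nn (a : ℕ) (v : V → V) (x : V) : 0 ≤ hf a v x := Finset.sum_nonneg fun l _ => abs_nonneg _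

/-- The mean velocity. -/
noncomputable def Mf (a : ℕ) (v : V → V) (x : V) : V := fun l => MN (rr a) v x l

lemma Mf_diff (h : Turb 1 T E D G u p) (a : ℕ) (x : V) {s t : ℝ} (hs : s ∈ G) (ht : t ∈ G)
    (hst : s ≤ t) : IntegrableOn (fun τ => hf a (u τ) x) (Ioo s t) ∧
      ‖Mf a (u t) x - Mf a (u s) x‖ ≤ ∫ τ in Ioo s t, hf a (u τ) x := by
  obtain ⟨Ck, hCk, hker⟩ := Pool.Agent.Y8.B.p_ker2
  have hT := Pool.Agent.Y8.B.p_tcut
  obtain ⟨hgs, hes, hen, hall⟩ := hker (rr a) (NE.rrp a) (rr_le1 a)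
  have hg0 : ∀ z, 1 / 2 ≤ ‖z‖ → gg (rr a) z = 0 := fun z hz => ((hall z).1 hz).1
  have h1 := fun l => MN_mod hT h hgs hg0 x l hs ht hst
  have h2 : IntegrableOn (fun τ => hf a (u τ) x) (Ioo s t) := by
    unfold hf
    exact integrable_finsetSum _ fun l _ => (h1 l).1.abs
  refine ⟨h2, ?_⟩
  rw [pi_norm_le_iff_of_nonneg (integral_nonneg fun τ => hf_nn _ _ _)]
  intro l
  have h3 : (Mf a (u t) x - Mf a (u s) x) l = ∫ τ in Ioo s t, HH (rr a) (u τ) x l := by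
    rw [← (h1 l).2]
    rfl
  rw [h3]
  refine norm_integral_le_of_norm_le h2 (Filter.Eventually.of_forall fun τ => ?_)
  unfold hf
  exact Finset.single_le_sum (f := fun l => |HH (rr a) (u τ) x l|)
    (fun l _ => abs_nonneg _) (Finset.mem_univ l)

lemma hf_int (h : Turb 1 T E D G u p) (a : ℕ) (x : V) {α β : ℝ} (hα : 0 < α) (hβ : β < T)
    (hαβ : α < β) : IntegrableOn (fun τ => hf a (u τ) x) (Ioo α β) := by
  obtain ⟨s', hs'G, hs'0, hs'1⟩ := ex_reg h hα le_rfl (by linarith)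
  obtain ⟨t', ht'G, ht'0, ht'1⟩ := ex_reg h hβ (by linarith) le_rfl
  have h1 := (Mf_diff h a x hs'G ht'G (by linarith)).1
  exact h1.mono_set (Ioo_subset_Ioo hs'1.le ht'0.le)

end

end Pool.Agent.Q193.NE
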